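import Pool.Agent.Lib.MP_9f2731_nt.QL.Sw.Spec

/-!
MP_9f2731_nt, QL/Sw, module Dl: the density of the numbers prime to V.
-/

namespace Pool.Agent.Lib.MP_9f2731_nt.QL.Sw

open Finset
open Pool.Agent.Lib.MP_9f2731_nt.GP Pool.Agent.Lib.MP_9f2731_nt.GP.Sv Pool.Agent.Lib.MP_9f2731_nt.QL

/-- the arithmetic function 1/n -/
private noncomputable def dlF : ArithmeticFunction ℝ :=
  ⟨fun n => 1 / (n : ℝ), by simp⟩

private theorem dlF_apply (n : ℕ) : dlF n = 1 / (n : ℝ) := rfl

private theorem dlF_mul : dlF.IsMultiplicative := by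
  refine ⟨by simp [dlF_apply], fun {m n} _ => ?_⟩
  rw [dlF_apply, dlF_apply, dlF_apply]
  push_cast
  rw [one_div_mul_one_div]

/-- the arithmetic function μ(n)/n -/
private noncomputable def dlM : ArithmeticFunction ℝ :=
  ⟨fun n => ((ArithmeticFunction.moebius n : ℤ) : ℝ) / (n : ℝ), by simp⟩

private theorem dlM_apply (n : ℕ) : dlM n = ((ArithmeticFunction.moebius n : ℤ) : ℝ) / (n : ℝ) := rfl

private theorem dlM_mul : dlM.IsMultiplicative := by
  refine ⟨by simp [dlM_apply], fun {m n} hmn => ?_⟩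
  rw [dlM_apply, dlM_apply, dlM_apply, ArithmeticFunction.isMultiplicative_moebius.map_mul_of_coprime hmn]
  push_cast
  rw [div_mul_div_comm]

private theorem dl_dvd (V : ℕ) : (∏ p ∈ V.primeFactors, p) ∣ V := Nat.prod_primeFactors_dvd V

private theorem dl_sqf (V : ℕ) : Squarefree (∏ p ∈ V.primeFactors, p) := by
  have h : ∀ s : Finset ℕ, (∀ p ∈ s, p.Prime) → Squarefree (∏ p ∈ s, p) := by
    intro s
    induction s using Finset.induction_on with
    | empty => intro _; simp
    | insert p s hp ih =>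
      intro hs
      rw [prod_insert hp]
      refine (Nat.squarefree_mul ?_).2 ⟨(hs p (mem_insert_self p s)).squarefree,
        ih fun q hq => hs q (mem_insert_of_mem hq)⟩
      refine Nat.Coprime.prod_right fun q hq => ?_
      refine (Nat.coprime_primes (hs p (mem_insert_self p s)) (hs q (mem_insert_of_mem hq))).2 ?_
      rintro rfl
      exact hp hq
  exact h _ fun p hp => Nat.prime_of_mem_primeFactors hp

private theorem dl_pf (V : ℕ) : (∏ p ∈ V.primeFactors, p).primeFactors = V.primeFactors :=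
  Nat.primeFactors_prod fun _ hp => Nat.prime_of_mem_primeFactors hp

/-- only squarefree divisors count -/
private theorem dl_rad {V : ℕ} (hV : 1 ≤ V) (F : ℕ → ℝ) :
    ∑ d ∈ V.divisors, ((ArithmeticFunction.moebius d : ℤ) : ℝ) * F d
      = ∑ d ∈ (∏ p ∈ V.primeFactors, p).divisors, ((ArithmeticFunction.moebius d : ℤ) : ℝ) * F d := by
  symm
  refine sum_subset (Nat.divisors_subset_of_dvd (by omega) (dl_dvd V)) ?_
  intro d hd hdn
  have h2 : ¬ Squarefree d := by
    intro hs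
    apply hdn
    refine Nat.mem_divisors.2 ⟨?_, ?_⟩
    · rw [← Nat.prod_primeFactors_of_squarefree hs]
      exact prod_dvd_prod_of_subset _ _ _
        (Nat.primeFactors_mono (Nat.dvd_of_mem_divisors hd) (by omega))
    · exact (Nat.pos_of_dvd_of_pos (dl_dvd V) hV).ne'
  rw [ArithmeticFunction.moebius_eq_zero_of_not_squarefree h2, Int.cast_zero, zero_mul]

private theorem dl_prod {V : ℕ} (hV : 1 ≤ V) (F : ArithmeticFunction ℝ) (hF : F.IsMultiplicative) :
    ∑ d ∈ V.divisors, ((ArithmeticFunction.moebius d : ℤ) : ℝ) * F d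
      = ∏ p ∈ V.primeFactors, (1 - F p) := by
  rw [dl_rad hV, ← hF.prodPrimeFactors_one_sub_of_squarefree F (dl_sqf V), dl_pf]

private theorem dl_tot {V : ℕ} (hV : 1 ≤ V) : ∏ p ∈ V.primeFactors, (1 - (p : ℝ)⁻¹) = dlV V := by
  have hW : (0 : ℝ) < (V : ℝ) := by exact_mod_cast hV
  have h2 : (((V).totient : ℚ) : ℝ) =
      (((V : ℚ) * ∏ p ∈ V.primeFactors, (1 - (p : ℚ)⁻¹) : ℚ) : ℝ) := by
    rw [Nat.totient_eq_mul_prod_factors]
  push_cast at h2
  unfold dlV
  rw [eq_div_iff hW.ne', h2, mul_comm]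

private theorem dl_card : ∀ P : Finset ℕ, (∀ p ∈ P, 2 ≤ p) →
    ∏ p ∈ P, (1 - (p : ℝ)⁻¹)⁻¹ ≤ (P.card : ℝ) + 1 := by
  intro P
  induction P using Finset.induction_on_max with
  | empty => intro _; simp
  | insert a s hlt ih =>
    intro h2
    have has : a ∉ s := fun h => lt_irrefl a (hlt a h)
    rw [prod_insert has, card_insert_of_notMem has]
    have ih' := ih fun p hp => h2 p (mem_insert_of_mem hp)
    have ha2 : 2 ≤ a := h2 a (mem_insert_self a s)
    have hsub : s ⊆ Ico 2 a := by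
      intro p hp
      exact mem_Ico.2 ⟨h2 p (mem_insert_of_mem hp), hlt p hp⟩
    have hc : s.card + 2 ≤ a := by
      have h3 := card_le_card hsub
      rw [Nat.card_Ico] at h3
      omega
    have hcR : (s.card : ℝ) + 2 ≤ a := by exact_mod_cast hc
    have hs0 : (0 : ℝ) ≤ s.card := Nat.cast_nonneg _
    have ha0 : (0 : ℝ) < a := by linarith
    have ha1 : (0 : ℝ) < (a : ℝ) - 1 := by linarith
    have h4 : (1 - (a : ℝ)⁻¹)⁻¹ = a / (a - 1) := by
      field_simp
    have h5 : (1 - (a : ℝ)⁻¹)⁻¹ ≤ ((s.card : ℝ) + 2) / (s.card + 1) := by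
      rw [h4, div_le_div_iff₀ ha1 (by linarith)]
      nlinarith
    have h6 : (0 : ℝ) ≤ (1 - (a : ℝ)⁻¹)⁻¹ := by
      rw [h4]
      positivity
    push_cast
    calc (1 - (a : ℝ)⁻¹)⁻¹ * ∏ p ∈ s, (1 - (p : ℝ)⁻¹)⁻¹
        ≤ (1 - (a : ℝ)⁻¹)⁻¹ * ((s.card : ℝ) + 1) := mul_le_mul_of_nonneg_left ih' h6
      _ ≤ ((s.card : ℝ) + 2) / (s.card + 1) * ((s.card : ℝ) + 1) :=
        mul_le_mul_of_nonneg_right h5 (by linarith)
      _ = (s.card : ℝ) + 1 + 1 := by
        field_simp
        ring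

private theorem dl_log {V : ℕ} (hV : 1 ≤ V) : (V.primeFactors.card : ℝ) ≤ 2 * Real.log V := by
  have h1 : 2 ^ V.primeFactors.card ≤ V := by
    calc 2 ^ V.primeFactors.card = ∏ _p ∈ V.primeFactors, 2 := by rw [prod_const]
      _ ≤ ∏ p ∈ V.primeFactors, p :=
        prod_le_prod' fun p hp => (Nat.prime_of_mem_primeFactors hp).two_le
      _ ≤ V := Nat.le_of_dvd hV (dl_dvd V)
  have h2 : (V.primeFactors.card : ℝ) * Real.log 2 ≤ Real.log V := by
    rw [← Real.log_pow]
    exact Real.log_le_log (by positivity) (by exact_mod_cast h1)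
  have h3 := Real.log_two_gt_d9
  have h4 : (0 : ℝ) ≤ V.primeFactors.card := Nat.cast_nonneg _
  nlinarith

theorem pDl : S_Dl := by
  intro V hV
  have hpr : ∀ p ∈ V.primeFactors, 2 ≤ p := fun p hp => (Nat.prime_of_mem_primeFactors hp).two_le
  have hpos : ∀ p ∈ V.primeFactors, (0 : ℝ) < 1 - (p : ℝ)⁻¹ := by
    intro p hp
    have h1 : (2 : ℝ) ≤ p := by exact_mod_cast hpr p hp
    have h2 : (p : ℝ)⁻¹ ≤ 2⁻¹ := by
      apply inv_anti₀ (by norm_num) h1
    linarith [show (2 : ℝ)⁻¹ < 1 by norm_num]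
  have h3 : 1 / dlV V ≤ 1 + 2 * Real.log V := by
    rw [← dl_tot hV, one_div, ← prod_inv_distrib]
    have := dl_card _ hpr
    have := dl_log hV
    linarith
  refine ⟨?_, ?_, h3⟩
  · rw [← dl_tot hV]
    have h := dl_prod hV dlF dlF_mul
    simp only [dlF_apply, one_div] at h
    rw [← h]
    exact sum_congr rfl fun d _ => by rw [div_eq_mul_inv]
  · refine le_trans ?_ h3
    have h := dl_prod hV dlM dlM_mul
    have h4 : ∑ d ∈ V.divisors, |((ArithmeticFunction.moebius d : ℤ) : ℝ)| / d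
        = ∏ p ∈ V.primeFactors, (1 - dlM p) := by
      rw [← h]
      refine sum_congr rfl fun d _ => ?_
      rw [dlM_apply, mul_div_assoc']
      congr 1
      rcases ArithmeticFunction.moebius_eq_or d with h | h | h <;> rw [h] <;> simp
    rw [h4, ← dl_tot hV, one_div, ← prod_inv_distrib]
    refine prod_le_prod (fun p hp => ?_) fun p hp => ?_
    · rw [dlM_apply, ArithmeticFunction.moebius_apply_prime (Nat.prime_of_mem_primeFactors hp)]
      have : (0 : ℝ) ≤ (p : ℝ)⁻¹ := by positivity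
      push_cast
      rw [neg_div, one_div]
      linarith
    · rw [dlM_apply, ArithmeticFunction.moebius_apply_prime (Nat.prime_of_mem_primeFactors hp)]
      have h5 := hpos p hp
      have h6 : (0 : ℝ) ≤ (p : ℝ)⁻¹ := by positivity
      push_cast
      rw [neg_div, one_div, ← one_div (1 - (p : ℝ)⁻¹), le_div_iff₀ h5]
      nlinarith [sq_nonneg ((p : ℝ)⁻¹)]

end Pool.Agent.Lib.MP_9f2731_nt.QL.Sw
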