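import Pool.Agent.Lib.MP_9f2731_nt.QL.Sw.Spec

/-!
MP_9f2731_nt, QL/Sw: the average over a full period as an Euler product of operators.
-/

open Finset

open Pool.Agent.Lib.MP_9f2731_nt.GP Pool.Agent.Lib.MP_9f2731_nt.GP.Sv Pool.Agent.Lib.MP_9f2731_nt.QL

namespace Pool.Agent.Lib.MP_9f2731_nt.QL.Sw

theorem pExp (hU : S_Ub) (hC : S_Crt) : S_Exp := by
  intro ι _ _ V R m hR
  have hPq : (PqV V R : ℝ) ≠ 0 := by exact_mod_cast PqV_ne
  have hper : ∀ p ∈ QsV V R, ∀ b : ℕ,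
      (∏ i, (1 - ind p (nfV V (m i) (b + p)) • mon (e i p)) : Al ι)
        = ∏ i, (1 - ind p (nfV V (m i) b) • mon (e i p)) := by
    intro p _ b
    refine Finset.prod_congr rfl fun i _ => ?_
    have hh : ind p (nfV V (m i) (b + p)) = ind p (nfV V (m i) b) := by
      unfold ind
      have : (p ∣ nfV V (m i) (b + p)) ↔ (p ∣ nfV V (m i) b) := by
        have e1 : nfV V (m i) (b + p) = nfV V (m i) b + p * (V * m i) := by
          unfold nfV
          ring
        rw [e1]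
        exact (Nat.dvd_add_iff_left (Dvd.intro _ rfl)).symm
      simp only [this]
    rw [hh]
  have h1 := hC (Al ι) (QsV V R)
    (fun p b => ∏ i, (1 - ind p (nfV V (m i) b) • mon (e i p))) (fun p hp => (mem_QsV.1 hp).1) hper
  have h2 : ∑ b ∈ range (PqV V R), ∏ i, Lam 2 R (nfV V (m i) b)
      = act (∏ p ∈ QsV V R, ∑ b ∈ range p, ∏ i, (1 - ind p (nfV V (m i) b) • mon (e i p)))
        (Ph R ι) 1 := by
    rw [← h1]
    have h3 : ∏ p ∈ QsV V R, p = PqV V R := rfl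
    rw [h3, act_sum]
    refine Finset.sum_congr rfl fun b _ => ?_
    rw [hU ι V R (fun i => nfV V (m i) b) hR fun i => ⟨nfV_pos _ _ _, nfV_coprime _ _ _⟩]
  have h4 : (∏ p ∈ QsV V R, EEV V m p : Al ι) = (1 / (PqV V R : ℝ)) •
      ∏ p ∈ QsV V R, ∑ b ∈ range p, ∏ i, (1 - ind p (nfV V (m i) b) • mon (e i p)) := by
    unfold EEV
    rw [Finset.prod_smul]
    congr 1
    unfold PqV
    push_cast
    rw [Finset.prod_div_distrib, Finset.prod_const_one]
  rw [h4, act_smul, ← h2]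
  ring

end Pool.Agent.Lib.MP_9f2731_nt.QL.Sw
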