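import Pool.Agent.Lib.MP_9f2731_nt.QL.Sw.Spec

/-!
MP_9f2731_nt, QL/Sw, module Hw2: harmonic sums with quadratic logarithmic weights over the numbers prime to V.
-/

open Finset

open Pool.Agent.Lib.MP_9f2731_nt.GP Pool.Agent.Lib.MP_9f2731_nt.GP.Sv Pool.Agent.Lib.MP_9f2731_nt.QL

namespace Pool.Agent.Lib.MP_9f2731_nt.QL.Sw

private theorem hw2_one (h3 : GP.Sv.S_H2) {V d : ℕ} {y : ℝ} (hV : 1 ≤ V) (hd : d ∣ V) (hy : 1 ≤ y) :
    |hs 2 (y / d) - 1 / 3 * Real.log y ^ 3| ≤ (1 + Real.log V) * (1 + Real.log y) ^ 2 := by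
  have hd1 : 1 ≤ d := Nat.pos_of_dvd_of_pos hd hV
  have hdV : d ≤ V := Nat.le_of_dvd hV hd
  have hd0 : (0 : ℝ) < d := by exact_mod_cast hd1
  have hy0 : (0 : ℝ) < y := by linarith
  have ha0 : 0 ≤ Real.log d := Real.log_natCast_nonneg d
  have hav : Real.log d ≤ Real.log V := Real.log_le_log hd0 (by exact_mod_cast hdV)
  have hl0 : 0 ≤ Real.log y := Real.log_nonneg hy
  set a := Real.log d with ha
  set v := Real.log V with hv
  set l := Real.log y with hl
  have hv0 : 0 ≤ v := ha0.trans hav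
  rcases le_or_gt (d : ℝ) y with h | h
  · have h4 := h3 (y / d) ((one_le_div hd0).2 h)
    rw [Real.log_div hy0.ne' hd0.ne', ← ha, ← hl] at h4
    have h5 : a ≤ l := Real.log_le_log hd0 h
    have h6 : |1 / 3 * (l - a) ^ 3 - 1 / 3 * l ^ 3| ≤ v * l ^ 2 := by
      rw [abs_le]
      have e : 1 / 3 * (l - a) ^ 3 - 1 / 3 * l ^ 3
          = -(1 / 3 * (a * (l ^ 2 + l * (l - a) + (l - a) ^ 2))) := by ring
      rw [e]
      have h7 : 0 ≤ l - a := by linarith
      have h8 : l - a ≤ l := by linarith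
      have h9 : (l - a) ^ 2 ≤ l ^ 2 := pow_le_pow_left₀ h7 h8 2
      have h10 : l * (l - a) ≤ l ^ 2 := by nlinarith
      have h11 : 0 ≤ l ^ 2 + l * (l - a) + (l - a) ^ 2 := by positivity
      have h12 : a * (l ^ 2 + l * (l - a) + (l - a) ^ 2) ≤ v * (3 * l ^ 2) :=
        mul_le_mul hav (by linarith) h11 hv0
      have h13 : 0 ≤ a * (l ^ 2 + l * (l - a) + (l - a) ^ 2) := mul_nonneg ha0 h11
      have h14 : 0 ≤ v * l ^ 2 := by positivity
      constructor <;> linarith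
    have h15 : (l - a) ^ 2 ≤ l ^ 2 := pow_le_pow_left₀ (by linarith) (by linarith) 2
    calc |hs 2 (y / d) - 1 / 3 * l ^ 3|
        ≤ |hs 2 (y / d) - 1 / 3 * (l - a) ^ 3| + |1 / 3 * (l - a) ^ 3 - 1 / 3 * l ^ 3| :=
          abs_sub_le _ _ _
      _ ≤ ((l - a) ^ 2 + 1) + v * l ^ 2 := add_le_add h4 h6
      _ ≤ (1 + v) * (1 + l) ^ 2 := by nlinarith [mul_nonneg hv0 hl0]
  · have h4 : hs 2 (y / d) = 0 := by
      unfold hs
      have : ⌊y / d⌋₊ = 0 := by
        rw [Nat.floor_eq_zero, div_lt_one hd0]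
        exact h
      rw [this]
      simp
    rw [h4, zero_sub, abs_neg, abs_of_nonneg (by positivity)]
    have h5 : l ≤ v := (Real.log_le_log hy0 h.le).trans hav
    have h6 : l ^ 3 ≤ v * l ^ 2 := by nlinarith [sq_nonneg l]
    nlinarith [mul_nonneg hv0 hl0, sq_nonneg l]

theorem pHw2 (h1 : S_HwE) (h2 : S_Dl) (h3 : GP.Sv.S_H2) : S_Hw2 := by
  refine ⟨2, by norm_num, fun V y hV hy => ?_⟩
  obtain ⟨hd1, hd2, -⟩ := h2 V hV
  have hl0 : 0 ≤ Real.log y := Real.log_nonneg hy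
  have hv0 : 0 ≤ Real.log V := Real.log_natCast_nonneg V
  have e : hwV V 2 y - dlV V / 3 * Real.log y ^ 3
      = ∑ d ∈ V.divisors, ((ArithmeticFunction.moebius d : ℤ) : ℝ) / d *
        (hs 2 (y / d) - 1 / 3 * Real.log y ^ 3) := by
    rw [h1 V 2 y hV (by linarith), ← hd1, Finset.sum_div, Finset.sum_mul, ← Finset.sum_sub_distrib]
    exact Finset.sum_congr rfl fun d _ => by ring
  rw [e]
  calc |∑ d ∈ V.divisors, ((ArithmeticFunction.moebius d : ℤ) : ℝ) / d *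
        (hs 2 (y / d) - 1 / 3 * Real.log y ^ 3)|
      ≤ ∑ d ∈ V.divisors, |((ArithmeticFunction.moebius d : ℤ) : ℝ) / d *
        (hs 2 (y / d) - 1 / 3 * Real.log y ^ 3)| := Finset.abs_sum_le_sum_abs _ _
    _ ≤ ∑ d ∈ V.divisors, |((ArithmeticFunction.moebius d : ℤ) : ℝ)| / d *
        ((1 + Real.log V) * (1 + Real.log y) ^ 2) := by
        refine Finset.sum_le_sum fun d hd => ?_
        rw [abs_mul, abs_div, Nat.abs_cast]
        exact mul_le_mul_of_nonneg_left (hw2_one h3 hV (Nat.dvd_of_mem_divisors hd) hy)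
          (by positivity)
    _ = (∑ d ∈ V.divisors, |((ArithmeticFunction.moebius d : ℤ) : ℝ)| / d) *
        ((1 + Real.log V) * (1 + Real.log y) ^ 2) := by rw [Finset.sum_mul]
    _ ≤ (1 + 2 * Real.log V) * ((1 + Real.log V) * (1 + Real.log y) ^ 2) :=
        mul_le_mul_of_nonneg_right hd2 (by positivity)
    _ ≤ 2 * (1 + Real.log V) ^ 4 * (1 + Real.log y) ^ 2 := by
        have h4 : (1 + 2 * Real.log V) * (1 + Real.log V) ≤ 2 * (1 + Real.log V) ^ 4 := by
          have h5 : (1 + 2 * Real.log V) * (1 + Real.log V) ≤ 2 * (1 + Real.log V) ^ 2 := by nlinarith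
          have h6 : (1 + Real.log V) ^ 2 ≤ (1 + Real.log V) ^ 4 :=
            pow_le_pow_right₀ (by linarith) (by norm_num)
          linarith
        have h7 : 0 ≤ (1 + Real.log y) ^ 2 := by positivity
        calc (1 + 2 * Real.log V) * ((1 + Real.log V) * (1 + Real.log y) ^ 2)
            = (1 + 2 * Real.log V) * (1 + Real.log V) * (1 + Real.log y) ^ 2 := by ring
          _ ≤ 2 * (1 + Real.log V) ^ 4 * (1 + Real.log y) ^ 2 :=
            mul_le_mul_of_nonneg_right h4 h7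

end Pool.Agent.Lib.MP_9f2731_nt.QL.Sw
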