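import Pool.Agent.Lib.MP_9f2731_nt.QL.Sw.Spec

/-!
MP_9f2731_nt, QL/Sw/HwE (helper6, after helper84's docstring): removing the condition of coprimality.
-/

open Finset

open Pool.Agent.Lib.MP_9f2731_nt.GP Pool.Agent.Lib.MP_9f2731_nt.GP.Sv Pool.Agent.Lib.MP_9f2731_nt.QL

namespace Pool.Agent.Lib.MP_9f2731_nt.QL.Sw

namespace HwEN

theorem sum_mu (m : ℕ) (hm : m ≠ 0) :
    ∑ d ∈ m.divisors, ((ArithmeticFunction.moebius d : ℤ) : ℝ) = if m = 1 then 1 else 0 := by
  have h1 : (ArithmeticFunction.moebius * (ArithmeticFunction.zeta : ArithmeticFunction ℤ)) m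
      = (1 : ArithmeticFunction ℤ) m := by
    rw [ArithmeticFunction.moebius_mul_coe_zeta]
  rw [ArithmeticFunction.coe_mul_zeta_apply] at h1
  have h2 : ((∑ d ∈ m.divisors, ArithmeticFunction.moebius d : ℤ) : ℝ)
      = (((1 : ArithmeticFunction ℤ) m : ℤ) : ℝ) := by rw [h1]
  push_cast at h2
  rw [h2, ArithmeticFunction.one_apply]
  split_ifs <;> simp

/-- indicator of coprimality -/
theorem cop (W n : ℕ) (hW : W ≠ 0) :
    ∑ d ∈ W.divisors, (if d ∣ n then ((ArithmeticFunction.moebius d : ℤ) : ℝ) else 0)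
      = if n.Coprime W then 1 else 0 := by
  rw [← Finset.sum_filter]
  have e : W.divisors.filter (fun d => d ∣ n) = (Nat.gcd n W).divisors := by
    ext d
    rw [Finset.mem_filter, Nat.mem_divisors, Nat.mem_divisors]
    constructor
    · rintro ⟨⟨h1, _⟩, h3⟩
      exact ⟨Nat.dvd_gcd h3 h1, (Nat.gcd_pos_of_pos_right _ (Nat.pos_of_ne_zero hW)).ne'⟩
    · rintro ⟨h1, _⟩
      exact ⟨⟨h1.trans (Nat.gcd_dvd_right _ _), hW⟩, h1.trans (Nat.gcd_dvd_left _ _)⟩
  rw [e, sum_mu _ (Nat.gcd_pos_of_pos_right _ (Nat.pos_of_ne_zero hW)).ne']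

/-- multiples of d -/
theorem mult (f : ℕ → ℝ) (N d : ℕ) (hd : 1 ≤ d) :
    ∑ n ∈ Icc 1 N, (if d ∣ n then f n else 0) = ∑ n ∈ Icc 1 (N / d), f (d * n) := by
  rw [← Finset.sum_filter]
  symm
  refine Finset.sum_nbij' (fun n => d * n) (fun n => n / d) ?_ ?_ ?_ ?_ ?_
  · intro n hn
    rw [Finset.mem_Icc] at hn
    rw [Finset.mem_filter, Finset.mem_Icc]
    refine ⟨⟨Nat.mul_pos hd hn.1, ?_⟩, Dvd.intro _ rfl⟩
    exact (Nat.mul_le_mul_left d hn.2).trans (Nat.mul_div_le N d)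
  · intro n hn
    rw [Finset.mem_filter, Finset.mem_Icc] at hn
    rw [Finset.mem_Icc]
    obtain ⟨⟨h1, h2⟩, k, rfl⟩ := hn
    rw [Nat.mul_div_cancel_left k hd]
    constructor
    · rcases Nat.eq_zero_or_pos k with h | h
      · subst h; omega
      · exact h
    · rw [Nat.le_div_iff_mul_le hd, mul_comm]; exact h2
  · intro n _
    exact Nat.mul_div_cancel_left n hd
  · intro n hn
    rw [Finset.mem_filter] at hn
    exact Nat.mul_div_cancel' hn.2
  · intro n _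
    rfl

end HwEN

open HwEN in
theorem pHwE : S_HwE := by
  intro V k y hV _
  have hW : V ≠ 0 := by omega
  have e1 : hwV V k y = ∑ n ∈ Icc 1 ⌊y⌋₊, ∑ d ∈ (V).divisors,
      (if d ∣ n then ((ArithmeticFunction.moebius d : ℤ) : ℝ) else 0)
        * (1 / (n : ℝ) * Real.log (y / n) ^ k) := by
    unfold hwV
    rw [Finset.sum_filter]
    refine Finset.sum_congr rfl fun n _ => ?_
    rw [← Finset.sum_mul, cop (V) n hW]
    split_ifs <;> simp
  rw [e1, Finset.sum_comm]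
  refine Finset.sum_congr rfl fun d hd => ?_
  have hd1 : 1 ≤ d := Nat.pos_of_mem_divisors hd
  have hd0 : (d : ℝ) ≠ 0 := by positivity
  have e2 : ∀ n : ℕ, (if d ∣ n then ((ArithmeticFunction.moebius d : ℤ) : ℝ) else 0)
      * (1 / (n : ℝ) * Real.log (y / n) ^ k)
      = if d ∣ n then ((ArithmeticFunction.moebius d : ℤ) : ℝ)
        * (1 / (n : ℝ) * Real.log (y / n) ^ k) else 0 := fun n => by
    split_ifs <;> simp
  simp only [e2]
  rw [mult (fun n => ((ArithmeticFunction.moebius d : ℤ) : ℝ)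
    * (1 / (n : ℝ) * Real.log (y / n) ^ k)) ⌊y⌋₊ d hd1]
  unfold hs
  rw [Nat.floor_div_natCast, Finset.mul_sum]
  refine Finset.sum_congr rfl fun n _ => ?_
  have e3 : y / ((d * n : ℕ) : ℝ) = y / d / n := by
    push_cast; rw [div_div]
  rw [e3]
  push_cast
  ring

end Pool.Agent.Lib.MP_9f2731_nt.QL.Sw
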