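import Pool.Agent.Lib.MP_9f2731_nt.QL.Sw.Spec

/-!
MP_9f2731_nt, QL/Sw, module M2: Moebius sums with quadratic logarithmic weights over the numbers prime to V.
-/

open Finset

open Pool.Agent.Lib.MP_9f2731_nt.GP Pool.Agent.Lib.MP_9f2731_nt.GP.Sv Pool.Agent.Lib.MP_9f2731_nt.QL

namespace Pool.Agent.Lib.MP_9f2731_nt.QL.Sw

private theorem m2_Wp : Wp 0 = 1 := by
  unfold Wp
  rfl

private theorem m2_dl : dl 0 = 1 := by
  unfold dl
  rw [m2_Wp]
  simp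

private theorem m2_mw (t : ℝ) : mw 0 2 t = mwV 1 2 t := by
  unfold mw mwV
  rw [m2_Wp]

theorem pM2 (h1 : S_Smc) (h2 : S_SmB) (h3 : S_Dl) (h4 : GP.Sv.S_M2) : S_M2 := by
  classical
  obtain ⟨C0, hC0, hC⟩ := h4 0
  refine ⟨2 * C0 + 8, by linarith, fun V y hV hy => ?_⟩
  have hy0 : (0 : ℝ) < y := by linarith
  have hd0 : 0 < dlV V := dlV_pos hV
  obtain ⟨hS1, hS2⟩ := h2 V y hV hy
  obtain ⟨-, -, hD⟩ := h3 V hV
  have hv0 : 0 ≤ Real.log V := Real.log_natCast_nonneg V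
  set A := (Icc 1 ⌊y⌋₊).filter (fun v => SmV V v) with hA
  have hAv : ∀ v ∈ A, 1 ≤ v ∧ (v : ℝ) ≤ y := by
    intro v hv
    obtain ⟨h5, h6⟩ := mem_Icc.1 (mem_filter.1 hv).1
    exact ⟨h5, (Nat.le_floor_iff hy0.le).1 h6⟩
  have e1 : |mwV V 2 y - 2 * ∑ v ∈ A, 1 / (v : ℝ) * Real.log (y / v)| ≤ C0 * (1 / dlV V) := by
    rw [h1 V 2 y hV hy, mul_sum, ← sum_sub_distrib]
    calc |∑ v ∈ A, (1 / (v : ℝ) * mwV 1 2 (y / v) - 2 * (1 / (v : ℝ) * Real.log (y / v)))|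
        ≤ ∑ v ∈ A, |1 / (v : ℝ) * mwV 1 2 (y / v) - 2 * (1 / (v : ℝ) * Real.log (y / v))| :=
          abs_sum_le_sum_abs _ _
      _ ≤ ∑ v ∈ A, C0 * (1 / (v : ℝ)) := by
          refine sum_le_sum fun v hv => ?_
          obtain ⟨hv1, hvy⟩ := hAv v hv
          have hvR : (0 : ℝ) < v := by exact_mod_cast hv1
          have h5 := hC (y / v) ((one_le_div hvR).2 hvy)
          rw [m2_mw, m2_dl] at h5
          have e : 1 / (v : ℝ) * mwV 1 2 (y / v) - 2 * (1 / (v : ℝ) * Real.log (y / v))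
              = 1 / (v : ℝ) * (mwV 1 2 (y / v) - 2 / 1 * Real.log (y / v)) := by ring
          rw [e, abs_mul, abs_of_nonneg (by positivity), mul_comm]
          exact mul_le_mul_of_nonneg_right h5 (by positivity)
      _ = C0 * ∑ v ∈ A, 1 / (v : ℝ) := by rw [mul_sum]
      _ ≤ C0 * (1 / dlV V) := mul_le_mul_of_nonneg_left hS1 hC0.le
  have e2 : |2 * ∑ v ∈ A, 1 / (v : ℝ) * Real.log (y / v) - 2 / dlV V * Real.log y|
      ≤ 2 * Real.log V * (1 / dlV V) := by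
    have e : 2 * ∑ v ∈ A, 1 / (v : ℝ) * Real.log (y / v) - 2 / dlV V * Real.log y
        = 2 * (∑ v ∈ A, 1 / (v : ℝ) * Real.log (y / v) - Real.log y / dlV V) := by ring
    rw [e, abs_mul, abs_of_pos (by norm_num : (0 : ℝ) < 2)]
    calc 2 * |∑ v ∈ A, 1 / (v : ℝ) * Real.log (y / v) - Real.log y / dlV V|
        ≤ 2 * (Real.log V / dlV V) := mul_le_mul_of_nonneg_left hS2 (by norm_num)
      _ = 2 * Real.log V * (1 / dlV V) := by ring
  calc |mwV V 2 y - 2 / dlV V * Real.log y|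
      ≤ |mwV V 2 y - 2 * ∑ v ∈ A, 1 / (v : ℝ) * Real.log (y / v)|
        + |2 * ∑ v ∈ A, 1 / (v : ℝ) * Real.log (y / v) - 2 / dlV V * Real.log y| :=
        abs_sub_le _ _ _
    _ ≤ C0 * (1 / dlV V) + 2 * Real.log V * (1 / dlV V) := add_le_add e1 e2
    _ = (C0 + 2 * Real.log V) * (1 / dlV V) := by ring
    _ ≤ (C0 + 2 * Real.log V) * (1 + 2 * Real.log V) :=
        mul_le_mul_of_nonneg_left hD (by linarith)
    _ ≤ (2 * C0 + 8) * (1 + Real.log V) ^ 3 := by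
        have h5 : (1 + Real.log V) ^ 2 ≤ (1 + Real.log V) ^ 3 :=
          pow_le_pow_right₀ (by linarith) (by norm_num)
        have h6 : (C0 + 2 * Real.log V) * (1 + 2 * Real.log V)
            ≤ (2 * C0 + 8) * (1 + Real.log V) ^ 2 := by
          nlinarith [mul_nonneg hC0.le hv0, mul_nonneg hC0.le (sq_nonneg (Real.log V)),
            sq_nonneg (Real.log V)]
        calc (C0 + 2 * Real.log V) * (1 + 2 * Real.log V)
            ≤ (2 * C0 + 8) * (1 + Real.log V) ^ 2 := h6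
          _ ≤ (2 * C0 + 8) * (1 + Real.log V) ^ 3 :=
            mul_le_mul_of_nonneg_left h5 (by linarith)

end Pool.Agent.Lib.MP_9f2731_nt.QL.Sw
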