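import Pool.Agent.Lib.MP_9f2731_nt.QL.Sw.Spec

/-!
MP_9f2731_nt, QL/Sw, module Mom: moments of the sieve majorant, uniformly in the modulus V.
-/

open Finset

namespace Pool.Agent.Lib.MP_9f2731_nt.QL.Sw

open Pool.Agent.Lib.MP_9f2731_nt.GP
open Pool.Agent.Lib.MP_9f2731_nt.GP.Sv
open Pool.Agent.Lib.MP_9f2731_nt.QL

private lemma Mom_Lam (l : ℕ) (R : ℝ) (n : ℕ) (hR : 1 < R) :
    |Lam l R n| ≤ ((((Icc 1 ⌊R⌋₊).filter Squarefree).filter (fun d => d ∣ n)).card : ℝ) := by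
  classical
  unfold Lam
  refine le_trans (Finset.abs_sum_le_sum_abs _ _) ?_
  have hlogR : 0 < Real.log R := Real.log_pos hR
  have hterm : ∀ d ∈ n.divisors.filter (fun d : ℕ => (d : ℝ) ≤ R),
      |((ArithmeticFunction.moebius d : ℤ) : ℝ) * (1 - Real.log d / Real.log R) ^ l| ≤
        if Squarefree d then (1 : ℝ) else 0 := by
    intro d hd
    rw [Finset.mem_filter] at hd
    have hd1 : 1 ≤ d := Nat.pos_of_mem_divisors hd.1
    have hd1' : (1 : ℝ) ≤ d := by exact_mod_cast hd1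
    have hlogd : 0 ≤ Real.log (d : ℝ) := Real.log_nonneg hd1'
    have hq0 : 0 ≤ Real.log (d : ℝ) / Real.log R := by positivity
    have hq1 : Real.log (d : ℝ) / Real.log R ≤ 1 := by
      rw [div_le_one hlogR]
      exact Real.log_le_log (by linarith) hd.2
    rw [abs_mul, abs_pow]
    have h1 : |1 - Real.log (d : ℝ) / Real.log R| ≤ 1 := by
      rw [abs_le]
      constructor <;> linarith
    have h1' : |1 - Real.log (d : ℝ) / Real.log R| ^ l ≤ 1 := pow_le_one₀ (abs_nonneg _) h1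
    split_ifs with hsq
    · have h2 : |((ArithmeticFunction.moebius d : ℤ) : ℝ)| ≤ 1 := by
        exact_mod_cast ArithmeticFunction.abs_moebius_le_one (n := d)
      exact mul_le_one₀ h2 (by positivity) h1'
    · rw [ArithmeticFunction.moebius_eq_zero_of_not_squarefree hsq]
      simp
  refine le_trans (Finset.sum_le_sum hterm) ?_
  rw [← Finset.sum_filter, Finset.sum_const, nsmul_eq_mul, mul_one]
  have hsub : (n.divisors.filter (fun d : ℕ => (d : ℝ) ≤ R)).filter Squarefree ⊆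
      ((Icc 1 ⌊R⌋₊).filter Squarefree).filter (fun d => d ∣ n) := by
    intro d hd
    simp only [Finset.mem_filter, Finset.mem_Icc, Nat.mem_divisors] at hd ⊢
    refine ⟨⟨⟨?_, Nat.le_floor hd.1.2⟩, hd.2⟩, hd.1.1.1⟩
    exact Nat.pos_of_dvd_of_pos hd.1.1.1 (Nat.pos_of_ne_zero hd.1.1.2)
  exact_mod_cast Finset.card_le_card hsub

private lemma Mom_nu (V : ℕ) (R x : ℝ) (n : ℕ) (hV : 1 ≤ V) (hR : 1 < R) (hRx : Real.log R ≤ x) :
    0 ≤ nuV V R n ∧
      nuV V R n ≤ x * ((((Icc 1 ⌊R⌋₊).filter Squarefree).filter (fun d => d ∣ n)).card : ℝ) ^ 2 := by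
  classical
  have hlogR : 0 < Real.log R := Real.log_pos hR
  have hL := Mom_Lam 2 R n hR
  have hA0 : (0 : ℝ) ≤ (V.totient / V : ℝ) := by positivity
  have hA1 : (V.totient / V : ℝ) ≤ 1 := by
    rw [div_le_one (by exact_mod_cast hV)]
    exact_mod_cast Nat.totient_le _
  have hsq : (Lam 2 R n) ^ 2 ≤
      ((((Icc 1 ⌊R⌋₊).filter Squarefree).filter (fun d => d ∣ n)).card : ℝ) ^ 2 := by
    rw [← sq_abs]
    exact pow_le_pow_left₀ (abs_nonneg _) hL 2
  unfold nuV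
  refine ⟨by positivity, ?_⟩
  have hx0 : 0 ≤ x := le_trans hlogR.le hRx
  have hx1 : 0 ≤ 1 * x := by linarith
  have h1 : (V.totient / V : ℝ) * Real.log R * (3 / 4) ≤ x := by
    calc (V.totient / V : ℝ) * Real.log R * (3 / 4)
        ≤ 1 * x * 1 := by gcongr; norm_num
      _ = x := by ring
  exact mul_le_mul h1 hsq (sq_nonneg _) hx0

private lemma Mom_pow (m Rf n : ℕ) :
    ((((Icc 1 Rf).filter Squarefree).filter (fun d => d ∣ n)).card) ^ m =
      ((Fintype.piFinset (fun _ : Fin m => (Icc 1 Rf).filter Squarefree)).filter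
        (fun d => univ.lcm d ∣ n)).card := by
  classical
  rw [← Fintype.card_piFinset_const]
  congr 1
  ext d
  simp only [Fintype.mem_piFinset, Finset.mem_filter, Finset.lcm_dvd_iff, Finset.mem_univ,
    forall_true_left, forall_and]

/-- the sum over `b` of the power of the number of squarefree divisors -/
private lemma Mom_sum (h2 : GP.Rom.LcmStmt) (h3 : GP.Rom.CnbStmt) (m Rf c X : ℕ) :
    ∑ b ∈ Icc 1 X, ((((Icc 1 Rf).filter Squarefree).filter (fun d => d ∣ c * b + 1)).card : ℝ) ^ m ≤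
      X * (∏ p ∈ (Ioc 0 Rf).filter Nat.Prime, (1 + (2 : ℝ) ^ m / (p : ℝ))) + (Rf : ℝ) ^ m := by
  classical
  have e1 : ∀ b ∈ Icc 1 X,
      ((((Icc 1 Rf).filter Squarefree).filter (fun d => d ∣ c * b + 1)).card : ℝ) ^ m =
      ∑ d ∈ Fintype.piFinset (fun _ : Fin m => (Icc 1 Rf).filter Squarefree),
        if univ.lcm d ∣ c * b + 1 then (1 : ℝ) else 0 := by
    intro b _
    rw [← Finset.sum_filter, Finset.sum_const, nsmul_eq_mul, mul_one, ← Mom_pow]
    push_cast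
    rfl
  rw [Finset.sum_congr rfl e1, Finset.sum_comm]
  have e2 : ∀ d ∈ Fintype.piFinset (fun _ : Fin m => (Icc 1 Rf).filter Squarefree),
      (∑ b ∈ Icc 1 X, if univ.lcm d ∣ c * b + 1 then (1 : ℝ) else 0) ≤
        X * (1 / ((univ.lcm d : ℕ) : ℝ)) + 1 := by
    intro d hd
    rw [← Finset.sum_filter, Finset.sum_const, nsmul_eq_mul, mul_one]
    have hne : univ.lcm d ≠ 0 := by
      rw [Ne, Finset.lcm_eq_zero_iff]
      rintro ⟨j, _, hj⟩
      have := Fintype.mem_piFinset.mp hd j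
      rw [Finset.mem_filter, Finset.mem_Icc] at this
      omega
    have := h3 c (univ.lcm d) X (Nat.one_le_iff_ne_zero.mpr hne)
    rw [mul_one_div]
    exact this
  refine le_trans (Finset.sum_le_sum e2) ?_
  rw [Finset.sum_add_distrib, ← Finset.mul_sum, Finset.sum_const, nsmul_eq_mul, mul_one,
    Fintype.card_piFinset_const]
  have hcard : (((Icc 1 Rf).filter Squarefree).card : ℝ) ≤ Rf := by
    have h := Finset.card_filter_le (Icc 1 Rf) Squarefree
    rw [Nat.card_Icc] at h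
    exact_mod_cast (by omega : ((Icc 1 Rf).filter Squarefree).card ≤ Rf)
  have h2' := h2 m Rf
  push_cast
  gcongr

theorem pMom (h1 : GP.Rom.TotStmt) (h2 : GP.Rom.LcmStmt) (h3 : GP.Rom.CnbStmt) : S_Mom := by
  classical
  intro J
  have hP0 : (0 : ℝ) < 2 ^ (2 * J) := by positivity
  obtain ⟨B, hB, hTot⟩ := h1 (2 ^ (2 * J)) hP0
  have hK : 0 < (B + 1) * (2 : ℝ) ^ ((2 : ℝ) ^ (2 * J)) := by positivity
  have hK1 : 1 ≤ (2 : ℝ) ^ ((2 : ℝ) ^ (2 * J)) := Real.one_le_rpow (by norm_num) hP0.le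
  refine ⟨J + 2 ^ (2 * J) + 1 + (B + 1) * (2 : ℝ) ^ ((2 : ℝ) ^ (2 * J)), by positivity, ?_⟩
  intro κ X V m hκ hJκ hX hV hm
  have hX3 : (3 : ℝ) ≤ X := by exact_mod_cast hX
  have hX0 : (0 : ℝ) < X := by linarith
  have hlog1 : 1 ≤ Real.log X := by
    rw [Real.le_log_iff_exp_le hX0]
    have := Real.exp_one_lt_d9
    linarith
  rw [div_le_iff₀ hX0]
  set C : ℝ := J + 2 ^ (2 * J) + 1 + (B + 1) * (2 : ℝ) ^ ((2 : ℝ) ^ (2 * J)) with hC
  have hCJ : (J : ℝ) + 2 ^ (2 * J) ≤ C := by rw [hC]; linarith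
  have hCK : (B + 1) * (2 : ℝ) ^ ((2 : ℝ) ^ (2 * J)) + 1 ≤ C := by
    rw [hC]
    have : (0 : ℝ) ≤ J := by positivity
    linarith
  have hC0 : 0 < C := by linarith
  have hC1 : 1 ≤ C := by linarith
  rcases Nat.eq_zero_or_pos J with hJ | hJ
  · subst hJ
    simp only [pow_zero, Finset.sum_const, Nat.card_Icc, nsmul_eq_mul, mul_one]
    have h5 : (1 : ℝ) ≤ (Real.log X) ^ C := Real.one_le_rpow hlog1 hC0.le
    have hc : ((X + 1 - 1 : ℕ) : ℝ) = X := by simp
    rw [hc]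
    have h6 : 1 ≤ C * Real.log X ^ C := by nlinarith
    nlinarith
  · have hJ' : (1 : ℝ) ≤ J := by exact_mod_cast hJ
    have hκ1 : κ ≤ 1 := by nlinarith
    have hX1 : (1 : ℝ) < X := by linarith
    have hR : 1 < (X : ℝ) ^ κ := Real.one_lt_rpow hX1 hκ
    have hRX : (X : ℝ) ^ κ ≤ X := by
      have h := Real.rpow_le_rpow_of_exponent_le hX1.le hκ1
      rwa [Real.rpow_one] at h
    have hlogR : Real.log ((X : ℝ) ^ κ) ≤ Real.log X := Real.log_le_log (by linarith) hRX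
    obtain ⟨Rf, hRf⟩ : ∃ Rf : ℕ, Rf = ⌊(X : ℝ) ^ κ⌋₊ := ⟨_, rfl⟩
    have hRf1 : 1 ≤ Rf := by
      rw [hRf]
      exact Nat.le_floor (by exact_mod_cast hR.le)
    have hRfR : (Rf : ℝ) ≤ (X : ℝ) ^ κ := by
      rw [hRf]
      exact Nat.floor_le (by linarith)
    -- bound of the summand
    have hterm : ∀ b ∈ Icc 1 X, (nuV V ((X : ℝ) ^ κ) (V * b * m + 1)) ^ J ≤
        (Real.log X) ^ J *
        ((((Icc 1 Rf).filter Squarefree).filter (fun d => d ∣ (V * m) * b + 1)).card : ℝ) ^ (2 * J) := by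
      intro b _
      have hn := Mom_nu V ((X : ℝ) ^ κ) (Real.log X) (V * b * m + 1) hV hR hlogR
      have hr : V * b * m + 1 = (V * m) * b + 1 := by ring
      rw [hr, ← hRf] at hn
      rw [hr, pow_mul, ← mul_pow]
      exact pow_le_pow_left₀ hn.1 hn.2 J
    refine le_trans (Finset.sum_le_sum hterm) ?_
    rw [← Finset.mul_sum]
    have hs := Mom_sum h2 h3 (2 * J) Rf (V * m) X
    have hRpow : (Rf : ℝ) ^ (2 * J) ≤ X := by
      calc (Rf : ℝ) ^ (2 * J) ≤ ((X : ℝ) ^ κ) ^ (2 * J) := by gcongr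
        _ = (X : ℝ) ^ (κ * ((2 * J : ℕ) : ℝ)) := by
            rw [← Real.rpow_natCast, ← Real.rpow_mul hX0.le]
        _ ≤ (X : ℝ) ^ (1 : ℝ) := by
            apply Real.rpow_le_rpow_of_exponent_le hX1.le
            push_cast
            linarith
        _ = X := Real.rpow_one _
    have hprod : ∏ p ∈ (Ioc 0 Rf).filter Nat.Prime, (1 + (2 : ℝ) ^ (2 * J) / (p : ℝ)) ≤
        (B + 1) * (1 + Real.log X) ^ ((2 : ℝ) ^ (2 * J)) := by
      have hL1 : (1 : ℝ) ≤ (1 + Real.log X) ^ ((2 : ℝ) ^ (2 * J)) :=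
        Real.one_le_rpow (by linarith) hP0.le
      rcases Nat.lt_or_ge 1 Rf with hRf2 | hRf2
      · refine le_trans (hTot 0 Rf hRf2) ?_
        have hRf1' : (1 : ℝ) ≤ Rf := by exact_mod_cast hRf1
        have e0 : 0 ≤ Real.log (Rf : ℝ) := Real.log_nonneg hRf1'
        have e1 : Real.log (Rf : ℝ) ≤ Real.log X := Real.log_le_log (by linarith) (le_trans hRfR hRX)
        have e2 : (1 + Real.log (Rf : ℝ)) ^ ((2 : ℝ) ^ (2 * J)) ≤
            (1 + Real.log X) ^ ((2 : ℝ) ^ (2 * J)) :=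
          Real.rpow_le_rpow (by linarith) (by linarith) hP0.le
        have e3 : (0 : ℝ) ≤ (1 + Real.log (Rf : ℝ)) ^ ((2 : ℝ) ^ (2 * J)) :=
          Real.rpow_nonneg (by linarith) _
        exact mul_le_mul (by linarith) e2 e3 (by linarith)
      · have hRfe : Rf = 1 := by omega
        have hemp : (Ioc 0 Rf).filter Nat.Prime = ∅ := by
          rw [hRfe]
          ext p
          simp only [Finset.mem_filter, Finset.mem_Ioc, Finset.notMem_empty, iff_false, not_and]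
          intro h hp
          have := hp.two_le
          omega
        rw [hemp, Finset.prod_empty]
        nlinarith
    have hprod2 : (B + 1) * (1 + Real.log X) ^ ((2 : ℝ) ^ (2 * J)) ≤
        (B + 1) * (2 : ℝ) ^ ((2 : ℝ) ^ (2 * J)) * (Real.log X) ^ ((2 : ℝ) ^ (2 * J)) := by
      rw [mul_assoc, ← Real.mul_rpow (by norm_num) (by linarith)]
      have e4 : (1 + Real.log X) ^ ((2 : ℝ) ^ (2 * J)) ≤ (2 * Real.log X) ^ ((2 : ℝ) ^ (2 * J)) :=
        Real.rpow_le_rpow (by linarith) (by linarith) hP0.le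
      exact mul_le_mul_of_nonneg_left e4 (by linarith)
    have hLP : 1 ≤ (Real.log X) ^ ((2 : ℝ) ^ (2 * J)) := Real.one_le_rpow hlog1 hP0.le
    have hfin : ∑ b ∈ Icc 1 X,
        ((((Icc 1 Rf).filter Squarefree).filter (fun d => d ∣ (V * m) * b + 1)).card : ℝ) ^ (2 * J) ≤
        X * (C * (Real.log X) ^ ((2 : ℝ) ^ (2 * J))) := by
      refine le_trans hs ?_
      calc X * (∏ p ∈ (Ioc 0 Rf).filter Nat.Prime, (1 + (2 : ℝ) ^ (2 * J) / (p : ℝ))) +
            (Rf : ℝ) ^ (2 * J)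
          ≤ X * ((B + 1) * (2 : ℝ) ^ ((2 : ℝ) ^ (2 * J)) * (Real.log X) ^ ((2 : ℝ) ^ (2 * J))) + X * 1 := by
            rw [mul_one]
            gcongr
            exact le_trans hprod hprod2
        _ = X * ((B + 1) * (2 : ℝ) ^ ((2 : ℝ) ^ (2 * J)) * (Real.log X) ^ ((2 : ℝ) ^ (2 * J)) + 1) := by ring
        _ ≤ X * (C * (Real.log X) ^ ((2 : ℝ) ^ (2 * J))) := by
            apply mul_le_mul_of_nonneg_left _ hX0.le
            nlinarith
    have hlJ : 0 ≤ (Real.log X) ^ J := by positivity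
    calc (Real.log X) ^ J * ∑ b ∈ Icc 1 X,
        ((((Icc 1 Rf).filter Squarefree).filter (fun d => d ∣ (V * m) * b + 1)).card : ℝ) ^ (2 * J)
        ≤ (Real.log X) ^ J * (X * (C * (Real.log X) ^ ((2 : ℝ) ^ (2 * J)))) :=
          mul_le_mul_of_nonneg_left hfin hlJ
      _ = C * (Real.log X) ^ ((J : ℝ) + 2 ^ (2 * J)) * X := by
          have hl0 : 0 < Real.log X := by linarith
          rw [Real.rpow_add hl0, Real.rpow_natCast]
          ring
      _ ≤ C * Real.log X ^ C * X := by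
          have := Real.rpow_le_rpow_of_exponent_le hlog1 hCJ
          gcongr

end Pool.Agent.Lib.MP_9f2731_nt.QL.Sw

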