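import Pool.Agent.Lib.MP_9f2731_nt.QL.Sw.Spec

/-!
MP_9f2731_nt, QL/Sw, module Smc: Moebius sums over the numbers prime to V.
-/

open Finset

open Pool.Agent.Lib.MP_9f2731_nt.GP Pool.Agent.Lib.MP_9f2731_nt.GP.Sv Pool.Agent.Lib.MP_9f2731_nt.QL

namespace Pool.Agent.Lib.MP_9f2731_nt.QL.Sw

namespace SmcAux

private theorem conv (a b G : ℕ → ℝ) (N : ℕ) :
    ∑ n ∈ Ioc 0 N, (∑ x ∈ n.divisorsAntidiagonal, a x.1 * b x.2) * G n
      = ∑ v ∈ Ioc 0 N, a v * ∑ m ∈ Ioc 0 (N / v), b m * G (v * m) := by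
  have h1 : ∑ n ∈ Ioc 0 N, (∑ x ∈ n.divisorsAntidiagonal, a x.1 * b x.2) * G n
      = ∑ x ∈ Ioc 0 N ×ˢ Ioc 0 N with x.1 * x.2 ≤ N, a x.1 * b x.2 * G (x.1 * x.2) := by
    trans ∑ n ∈ Ioc 0 N, ∑ x ∈ Ioc 0 N ×ˢ Ioc 0 N with x.1 * x.2 = n,
      a x.1 * b x.2 * G (x.1 * x.2)
    · refine sum_congr rfl fun n hn ↦ ?_
      simp only [mem_Ioc] at hn
      rw [Nat.divisorsAntidiagonal_eq_prod_filter_of_le hn.1.ne' hn.2, sum_mul]
      refine sum_congr rfl fun x hx => ?_
      rw [(mem_filter.1 hx).2]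
    · simp_rw [sum_filter]
      rw [sum_comm]
      exact sum_congr rfl fun _ _ ↦ (by simp_all)
  rw [h1, sum_filter, sum_product]
  refine sum_congr rfl fun n hn ↦ ?_
  have hn0 : 0 < n := (mem_Ioc.1 hn).1
  rw [← sum_filter, mul_sum]
  have h2 : (Ioc 0 N).filter (fun m => n * m ≤ N) = Ioc 0 (N / n) := by
    ext m
    rw [mem_filter, mem_Ioc, mem_Ioc, Nat.le_div_iff_mul_le hn0, mul_comm m n]
    constructor
    · rintro ⟨⟨h3, -⟩, h5⟩
      exact ⟨h3, h5⟩
    · rintro ⟨h3, h5⟩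
      exact ⟨⟨h3, (Nat.le_mul_of_pos_left m hn0).trans h5⟩, h5⟩
  rw [h2]
  exact sum_congr rfl fun m _ => by ring

open Classical in
/-- the indicator of the numbers composed of primes dividing V -/
private noncomputable def sA (V : ℕ) : ArithmeticFunction ℤ :=
  ⟨fun n => if SmV V n then 1 else 0, by
    rw [if_neg]
    exact fun h => absurd h.1 (by omega)⟩

open Classical in
private theorem sA_apply (V n : ℕ) : sA V n = if SmV V n then 1 else 0 := rfl

private theorem sm_mul {V m n : ℕ} : SmV V (m * n) ↔ SmV V m ∧ SmV V n := by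
  constructor
  · rintro ⟨h1, h2⟩
    have hm : m ≠ 0 := by rintro rfl; simp at h1
    have hn : n ≠ 0 := by rintro rfl; simp at h1
    exact ⟨⟨Nat.pos_of_ne_zero hm, fun p hp hd => h2 p hp (hd.mul_right n)⟩,
      ⟨Nat.pos_of_ne_zero hn, fun p hp hd => h2 p hp (hd.mul_left m)⟩⟩
  · rintro ⟨⟨h1, h2⟩, h3, h4⟩
    refine ⟨Nat.mul_pos h1 h3, fun p hp hd => ?_⟩
    rcases (Nat.Prime.dvd_mul hp).1 hd with h | h
    · exact h2 p hp h
    · exact h4 p hp h

private theorem sm_one (V : ℕ) : SmV V 1 :=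
  ⟨le_rfl, fun _ hp hd => absurd (Nat.dvd_one.1 hd) hp.one_lt.ne'⟩

private theorem sA_mul (V : ℕ) : (sA V).IsMultiplicative := by
  refine ⟨by rw [sA_apply, if_pos (sm_one V)], fun {m n} _ => ?_⟩
  rw [sA_apply, sA_apply, sA_apply]
  by_cases h1 : SmV V m
  · by_cases h2 : SmV V n
    · rw [if_pos (sm_mul.2 ⟨h1, h2⟩), if_pos h1, if_pos h2, one_mul]
    · rw [if_neg fun h => h2 (sm_mul.1 h).2, if_neg h2, mul_zero]
  · rw [if_neg fun h => h1 (sm_mul.1 h).1, if_neg h1, zero_mul]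

/-- the Moebius function restricted to the numbers prime to V -/
private def gA (V : ℕ) : ArithmeticFunction ℤ :=
  ⟨fun n => if n.Coprime V then ArithmeticFunction.moebius n else 0, by simp⟩

private theorem gA_apply (V n : ℕ) :
    gA V n = if n.Coprime V then ArithmeticFunction.moebius n else 0 := rfl

private theorem gA_mul (V : ℕ) : (gA V).IsMultiplicative := by
  refine ⟨by rw [gA_apply, if_pos (Nat.coprime_one_left V), ArithmeticFunction.moebius_apply_one],
    fun {m n} hmn => ?_⟩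
  rw [gA_apply, gA_apply, gA_apply]
  by_cases h1 : m.Coprime V
  · by_cases h2 : n.Coprime V
    · rw [if_pos (Nat.Coprime.mul_left h1 h2), if_pos h1, if_pos h2,
        ArithmeticFunction.isMultiplicative_moebius.map_mul_of_coprime hmn]
    · rw [if_neg fun h => h2 (Nat.Coprime.coprime_mul_left h), if_neg h2, mul_zero]
  · rw [if_neg fun h => h1 (Nat.Coprime.coprime_mul_right h), if_neg h1, zero_mul]

private theorem sA_conv {V : ℕ} (hV : 1 ≤ V) : sA V * ArithmeticFunction.moebius = gA V := by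
  rw [((sA_mul V).mul ArithmeticFunction.isMultiplicative_moebius).eq_iff_eq_on_prime_powers _
    (gA V) (gA_mul V)]
  intro p i hp
  by_cases hpV : p ∣ V
  · have h1 : (sA V * ArithmeticFunction.moebius) (p ^ i)
        = ((ArithmeticFunction.zeta : ArithmeticFunction ℤ) * ArithmeticFunction.moebius) (p ^ i) := by
      rw [ArithmeticFunction.mul_apply, ArithmeticFunction.mul_apply]
      refine sum_congr rfl fun x hx => ?_
      have hx1 := Nat.mem_divisorsAntidiagonal.1 hx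
      have hx2 : x.1 ∣ p ^ i := Dvd.intro _ hx1.1
      obtain ⟨j, -, hj⟩ := (Nat.dvd_prime_pow hp).1 hx2
      have hx0 : x.1 ≠ 0 := by rw [hj]; exact (pow_pos hp.pos j).ne'
      congr 1
      rw [sA_apply, if_pos, ArithmeticFunction.natCoe_apply, ArithmeticFunction.zeta_apply_ne hx0]
      · rfl
      · refine ⟨Nat.pos_of_ne_zero hx0, fun q hq hqd => ?_⟩
        rw [hj] at hqd
        have := (Nat.prime_dvd_prime_iff_eq hq hp).1 (hq.dvd_of_dvd_pow hqd)
        rw [this]
        exact hpV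
    rw [h1, ArithmeticFunction.coe_zeta_mul_moebius, ArithmeticFunction.one_apply, gA_apply]
    rcases Nat.eq_zero_or_pos i with rfl | hi
    · rw [pow_zero, if_pos rfl, if_pos (Nat.coprime_one_left V),
        ArithmeticFunction.moebius_apply_one]
    · rw [if_neg (Nat.one_lt_pow hi.ne' hp.one_lt).ne', if_neg]
      intro h
      exact Nat.not_coprime_of_dvd_of_dvd hp.one_lt (dvd_pow_self p hi.ne') hpV h
  · have hc : (p ^ i).Coprime V := Nat.Coprime.pow_left i ((Nat.Prime.coprime_iff_not_dvd hp).2 hpV)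
    rw [gA_apply, if_pos hc, ArithmeticFunction.mul_apply,
      sum_eq_single ((1, p ^ i) : ℕ × ℕ)]
    · rw [sA_apply, if_pos (sm_one V), one_mul]
    · intro x hx hne
      have hx1 := Nat.mem_divisorsAntidiagonal.1 hx
      have hx2 : x.1 ∣ p ^ i := Dvd.intro _ hx1.1
      obtain ⟨j, -, hj⟩ := (Nat.dvd_prime_pow hp).1 hx2
      rw [sA_apply, if_neg, zero_mul]
      intro h
      rcases Nat.eq_zero_or_pos j with h0 | h0
      · apply hne
        rw [h0, pow_zero] at hj
        have h2 := hx1.1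
        rw [hj, one_mul] at h2
        exact Prod.ext hj h2
      · exact hpV (h.2 p hp (hj ▸ dvd_pow_self p h0.ne'))
    · intro h
      exact absurd (Nat.mem_divisorsAntidiagonal.2 ⟨one_mul _, (pow_pos hp.pos i).ne'⟩) h

end SmcAux

open SmcAux

theorem pSmc : S_Smc := by
  classical
  intro V k y hV hy
  have hy0 : (0 : ℝ) < y := by linarith
  set N := ⌊y⌋₊ with hN
  have hI : ∀ M : ℕ, Icc 1 M = Ioc 0 M := fun M => by
    ext n
    rw [mem_Icc, mem_Ioc]
    exact Iff.rfl
  have h1 : mwV V k y = ∑ n ∈ Ioc 0 N, (∑ x ∈ n.divisorsAntidiagonal,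
      (if SmV V x.1 then (1 : ℝ) else 0) * ((ArithmeticFunction.moebius x.2 : ℤ) : ℝ)) *
        (1 / (n : ℝ) * Real.log (y / n) ^ k) := by
    unfold mwV
    rw [← hN, hI, sum_filter]
    refine sum_congr rfl fun n _ => ?_
    have h2 := congrArg (fun f : ArithmeticFunction ℤ => ((f n : ℤ) : ℝ)) (sA_conv hV)
    simp only [ArithmeticFunction.mul_apply, gA_apply, sA_apply] at h2
    push_cast at h2
    rw [h2]
    split_ifs
    · ring
    · simp
  rw [h1, conv (fun v => if SmV V v then (1 : ℝ) else 0)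
    (fun m => ((ArithmeticFunction.moebius m : ℤ) : ℝ)) (fun n => 1 / (n : ℝ) * Real.log (y / n) ^ k),
    hI, sum_filter]
  refine sum_congr rfl fun v hv => ?_
  have hv0 : 0 < v := (mem_Ioc.1 hv).1
  have hvR : (0 : ℝ) < v := by exact_mod_cast hv0
  split_ifs with hs
  · rw [one_mul]
    unfold mwV
    rw [Nat.floor_div_natCast, ← hN, mul_sum, filter_true_of_mem fun n _ => Nat.coprime_one_right n,
      hI]
    refine sum_congr rfl fun m hm => ?_
    have hm0 : 0 < m := (mem_Ioc.1 hm).1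
    have hmR : (0 : ℝ) < m := by exact_mod_cast hm0
    push_cast
    rw [div_div y (v : ℝ) m]
    field_simp
  · rw [zero_mul]

end Pool.Agent.Lib.MP_9f2731_nt.QL.Sw
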