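import Pool.Agent.Lib.MP_9f2731_nt.QL.Sw.Spec

/-!
MP_9f2731_nt, QL/Sw, module Sng: the product of the local errors is bounded by the singular factor.
-/

open Finset

open Pool.Agent.Lib.MP_9f2731_nt.GP Pool.Agent.Lib.MP_9f2731_nt.GP.Sv Pool.Agent.Lib.MP_9f2731_nt.QL

namespace Pool.Agent.Lib.MP_9f2731_nt.QL.Sw

theorem pSng : S_Sng := by
  classical
  intro C V w R Δ ε hC hw hΔ hWV hε
  have hw0 : (0 : ℝ) < w := by exact_mod_cast hw
  have hterm : ∀ p ∈ QsV V R, 1 + ε p ≤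
      Real.exp (C / (p : ℝ) ^ 2) * (if p ∣ Δ then 1 + C / (p : ℝ) else 1) := by
    intro p hp
    obtain ⟨h0, h1, h2⟩ := hε p hp
    have hexp : C / (p : ℝ) ^ 2 + 1 ≤ Real.exp (C / (p : ℝ) ^ 2) := Real.add_one_le_exp _
    have hq : 0 ≤ C / (p : ℝ) ^ 2 := by positivity
    have hq1 : 0 ≤ C / (p : ℝ) := by positivity
    split_ifs with hd
    · nlinarith
    · have := h2 hd
      linarith
  have hle : ∏ p ∈ QsV V R, (1 + ε p) ≤ ∏ p ∈ QsV V R,
      (Real.exp (C / (p : ℝ) ^ 2) * (if p ∣ Δ then 1 + C / (p : ℝ) else 1)) :=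
    Finset.prod_le_prod (fun p hp => by have := (hε p hp).1; linarith) hterm
  refine le_trans hle ?_
  rw [Finset.prod_mul_distrib, ← Real.exp_sum, ← Finset.prod_filter]
  have hone : ∀ p : ℕ, (1 : ℝ) ≤ 1 + C / (p : ℝ) := fun p => by
    have : 0 ≤ C / (p : ℝ) := by positivity
    linarith
  have hsum : ∑ p ∈ QsV V R, C / (p : ℝ) ^ 2 ≤ C / w := by
    have hsub : QsV V R ⊆ Ioc w (max w ⌊R⌋₊) := by
      intro p hp
      obtain ⟨h1, h2, h3⟩ := mem_QsV.1 hp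
      rw [Finset.mem_Ioc]
      refine ⟨?_, le_trans h3 (le_max_right _ _)⟩
      by_contra hcon
      exact h2 (hWV p h1 (by omega))
    calc ∑ p ∈ QsV V R, C / (p : ℝ) ^ 2 ≤ ∑ p ∈ Ioc w (max w ⌊R⌋₊), C / (p : ℝ) ^ 2 :=
          Finset.sum_le_sum_of_subset_of_nonneg hsub (fun p _ _ => by positivity)
      _ = C * ∑ p ∈ Ioc w (max w ⌊R⌋₊), ((p : ℝ) ^ 2)⁻¹ := by
          rw [Finset.mul_sum]
          exact Finset.sum_congr rfl fun p _ => div_eq_mul_inv _ _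
      _ ≤ C * ((w : ℝ)⁻¹ - ((max w ⌊R⌋₊ : ℕ) : ℝ)⁻¹) := by
          apply mul_le_mul_of_nonneg_left _ hC.le
          exact sum_Ioc_inv_sq_le_sub (by omega) (le_max_left _ _)
      _ ≤ C * (w : ℝ)⁻¹ := by
          apply mul_le_mul_of_nonneg_left _ hC.le
          have : 0 ≤ ((max w ⌊R⌋₊ : ℕ) : ℝ)⁻¹ := by positivity
          linarith
      _ = C / w := (div_eq_mul_inv _ _).symm
  have hprod : ∏ p ∈ (QsV V R).filter (fun p => p ∣ Δ), (1 + C / (p : ℝ)) ≤ singV C V Δ := by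
    unfold singV
    have hsub : (QsV V R).filter (fun p => p ∣ Δ) ⊆ Δ.primeFactors.filter (fun p => ¬ p ∣ V) := by
      intro p hp
      rw [Finset.mem_filter] at hp ⊢
      obtain ⟨h1, h2, _⟩ := mem_QsV.1 hp.1
      exact ⟨Nat.mem_primeFactors.2 ⟨h1, hp.2, hΔ⟩, h2⟩
    rw [← Finset.prod_sdiff hsub]
    have hA : (1 : ℝ) ≤ ∏ p ∈ Δ.primeFactors.filter (fun p => ¬ p ∣ V) \
        (QsV V R).filter (fun p => p ∣ Δ), (1 + C / (p : ℝ)) :=
      Finset.prod_induction _ (fun x : ℝ => 1 ≤ x)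
        (fun a b ha hb => one_le_mul_of_one_le_of_one_le ha hb) le_rfl (fun p _ => hone p)
    have hB : (0 : ℝ) ≤ ∏ p ∈ (QsV V R).filter (fun p => p ∣ Δ), (1 + C / (p : ℝ)) :=
      Finset.prod_nonneg (fun p _ => le_trans zero_le_one (hone p))
    nlinarith
  have hB : (0 : ℝ) ≤ ∏ p ∈ (QsV V R).filter (fun p => p ∣ Δ), (1 + C / (p : ℝ)) :=
    Finset.prod_nonneg (fun p _ => le_trans zero_le_one (hone p))
  exact mul_le_mul (Real.exp_le_exp.2 hsum) hprod hB (Real.exp_pos _).le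

end Pool.Agent.Lib.MP_9f2731_nt.QL.Sw
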