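import Pool.Agent.Lib.MP_9f2731_nt.QL.Sw.Spec

/-!
MP_9f2731_nt, QL/Sw: the correlation sum (after helper84, GP/Sv/Sum).
-/

open Finset

open Pool.Agent.Lib.MP_9f2731_nt.GP Pool.Agent.Lib.MP_9f2731_nt.GP.Sv Pool.Agent.Lib.MP_9f2731_nt.QL

namespace Pool.Agent.Lib.MP_9f2731_nt.QL.Sw

theorem pSum (h1 : S_Per) (h2 : S_Exp) (h3 : S_Inv) (h4 : S_The) (h5 : S_LocC) (h6 : GP.Sv.S_Mas)
    (h7 : S_Sng) : S_Sum := by
  intro n
  obtain ⟨C, hC, hloc⟩ := h5 n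
  refine ⟨C, hC, ?_⟩
  intro σ _ _ V w R T X Δ m hn hw hV hWV hR hX hΔ hm hd hT
  obtain ⟨K, hK⟩ : ∃ K : ℕ, R < 2 ^ K := pow_unbounded_of_one_lt R one_lt_two
  have hK2 : R < 2 ^ (K + 2) :=
    hK.trans_le (pow_le_pow_right₀ one_le_two (Nat.le_add_right K 2))
  have hcard : Fintype.card (σ × Bool) = 2 * Fintype.card σ := by
    rw [Fintype.card_prod, Fintype.card_bool, mul_comm]
  have hper := h1 (σ × Bool) V R X (fun i => m i.1) hR hX (fun i => hm i.1)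
  rw [h2 (σ × Bool) V R (fun i => m i.1) hR, hcard] at hper
  have hLam : ∀ b, ∏ i : σ × Bool, Lam 2 R (nfV V (m i.1) b)
      = ∏ j : σ, Lam 2 R (nfV V (m j) b) ^ 2 := by
    intro b
    rw [Fintype.prod_prod_type]
    refine Finset.prod_congr rfl fun j _ => ?_
    rw [Fintype.prod_bool, sq]
  simp only [hLam] at hper
  obtain ⟨Θ, hΘ⟩ : ∃ Θ, Θ = act (∏ p ∈ QsV V R, FF (σ := σ) (K + 2) p) (Ph R (σ × Bool)) :=
    ⟨_, rfl⟩
  have hΘv : ∀ a, Θ a = ∏ j : σ, TTV V R (a (j, true)) (a (j, false)) := fun a => by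
    rw [hΘ]
    exact h4 σ V (K + 2) R hR hV hK2 a
  have hΘ1 : Θ 1 = TTV V R 1 1 ^ Fintype.card σ := by
    rw [hΘv]
    simp
  have hΘb : ∀ a, |Θ a| ≤ T ^ Fintype.card σ := by
    intro a
    rw [hΘv, Finset.abs_prod]
    refine (Finset.prod_le_prod (fun _ _ => abs_nonneg _) (fun j _ => hT _ _)).trans ?_
    simp
  have hPh : Ph R (σ × Bool) = act (∏ p ∈ QsV V R, DD (σ := σ) (K + 2) p) Θ := by
    rw [hΘ, ← act_mul, ← Finset.prod_mul_distrib, h3 σ V (K + 2) R hK2]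
  have hmain : act (∏ p ∈ QsV V R, EEV V (fun i : σ × Bool => m i.1) p) (Ph R (σ × Bool)) 1
      = Θ 1 + act (∏ p ∈ QsV V R, (EEV V (fun i : σ × Bool => m i.1) p * DD (K + 2) p) - 1) Θ 1 := by
    rw [act_sub, act_one, hPh, ← act_mul, ← Finset.prod_mul_distrib]
    ring
  let ε : ℕ → ℝ := fun p => if p ∣ Δ then C / p else C / (p : ℝ) ^ 2
  have hε : ∀ p ∈ QsV V R,
      Nm (EEV V (fun i : σ × Bool => m i.1) p * DD (K + 2) p - 1) (ε p) := by
    intro p hp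
    obtain ⟨hp1, hp2, hp3⟩ := mem_QsV.1 hp
    obtain ⟨l1, l2⟩ := hloc σ V (K + 2) p m hn (by omega) hp1 hp2 hm
    show Nm _ (if p ∣ Δ then C / p else C / (p : ℝ) ^ 2)
    split_ifs with hpd
    · exact l1
    · exact l2 fun j k hjk h => hpd (h.trans (hd j k hjk))
  have hnm := h6 (σ × Bool) (QsV V R) _ ε hε
  have hsng := h7 C V w R Δ ε hC hw hΔ hWV (by
    intro p hp
    obtain ⟨hp1, hp2, hp3⟩ := mem_QsV.1 hp
    have hp0 : (1 : ℝ) ≤ p := by exact_mod_cast hp1.one_lt.le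
    have hle : C / (p : ℝ) ^ 2 ≤ C / p := by
      refine div_le_div_of_nonneg_left hC.le (by linarith) ?_
      nlinarith
    refine ⟨?_, ?_, ?_⟩
    · show 0 ≤ (if p ∣ Δ then C / p else C / (p : ℝ) ^ 2)
      split_ifs <;> positivity
    · show (if p ∣ Δ then C / p else C / (p : ℝ) ^ 2) ≤ C / p
      split_ifs
      · exact le_rfl
      · exact hle
    · intro hnd
      show (if p ∣ Δ then C / p else C / (p : ℝ) ^ 2) ≤ C / (p : ℝ) ^ 2
      rw [if_neg hnd])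
  have hTn : 0 ≤ T ^ Fintype.card σ := (abs_nonneg _).trans (hΘb 1)
  have hrem : |act (∏ p ∈ QsV V R, (EEV V (fun i : σ × Bool => m i.1) p * DD (K + 2) p) - 1) Θ 1|
      ≤ T ^ Fintype.card σ * (Real.exp (C / w) * singV C V Δ - 1) := by
    refine (hnm.2 Θ _ hΘb 1).trans ?_
    rw [mul_comm]
    exact mul_le_mul_of_nonneg_left (by linarith) hTn
  rw [hmain, hΘ1] at hper
  refine (abs_sub_le _ _ _).trans (add_le_add hper ?_)
  rw [add_sub_cancel_left]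
  exact hrem

end Pool.Agent.Lib.MP_9f2731_nt.QL.Sw

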