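import Pool.Agent.Lib.MP_9f2731_nt.QL.Sw.Spec

/-!
MP_9f2731_nt, QL/Sw/TTb: the size of the correlation sum of one form, uniformly in the modulus V.
-/

open Finset

namespace Pool.Agent.Lib.MP_9f2731_nt.QL.Sw

open Pool.Agent.Lib.MP_9f2731_nt.GP
open Pool.Agent.Lib.MP_9f2731_nt.GP.Sv
open Pool.Agent.Lib.MP_9f2731_nt.QL

private theorem TTb_abs (h1 : S_MR) (V : ℕ) (hV : 1 ≤ V) (R M δ : ℝ) (hR : 1 < R) (hδ : 0 < δ)
    (hM0 : 0 < M) (hM : ∀ y : ℝ, 1 ≤ y → |mwV V 2 y - 2 / δ * Real.log y| ≤ M) (g b : ℕ)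
    (hg : 1 ≤ g) (hgR : (g : ℝ) ≤ R) :
    |MMV V R (g * b)| ≤ (2 / δ * Real.log (R / g) + M) / Real.log R ^ 2 := by
  have hL : 0 < Real.log R := Real.log_pos hR
  have hg0 : (0 : ℝ) < g := by exact_mod_cast hg
  have hx : 0 ≤ Real.log (R / g) := Real.log_nonneg ((one_le_div hg0).2 hgR)
  rw [h1 V R (g * b) hR hV]
  split_ifs with hb
  · obtain ⟨hb1, hbR⟩ := hb
    have hgb : (0 : ℝ) < ((g * b : ℕ) : ℝ) := by exact_mod_cast hb1
    rw [abs_div, abs_of_nonneg (sq_nonneg (Real.log R))]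
    refine div_le_div_of_nonneg_right ?_ (sq_nonneg _)
    have h2 := hM (R / ((g * b : ℕ) : ℝ)) ((one_le_div hgb).2 hbR)
    have h3 : 0 ≤ Real.log (R / ((g * b : ℕ) : ℝ)) :=
      Real.log_nonneg ((one_le_div hgb).2 hbR)
    have h4 : Real.log (R / ((g * b : ℕ) : ℝ)) ≤ Real.log (R / g) := by
      refine Real.log_le_log (div_pos (by linarith) hgb) ?_
      refine div_le_div_of_nonneg_left (by linarith) hg0 ?_
      have h5 : 1 ≤ b := by
        rcases Nat.eq_zero_or_pos b with h | h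
        · rw [h, mul_zero] at hb1
          omega
        · exact h
      exact_mod_cast Nat.le_mul_of_pos_right g h5
    have h6 : 0 < 2 / δ := by positivity
    rw [abs_le] at h2 ⊢
    constructor
    · linarith [mul_nonneg h6.le h3, mul_nonneg h6.le hx, h2.1]
    · linarith [mul_le_mul_of_nonneg_left h4 h6.le, h2.2]
  · rw [abs_zero]
    positivity

/-- the core estimate for one V, with abstract constants -/
private theorem TTb_core (h1 : S_MR) (V : ℕ) (hV : 1 ≤ V) (R M N δ : ℝ) (hR : 2 ≤ R) (hδ : 0 < δ)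
    (hM0 : 0 < M) (hN0 : 0 < N) (hM : ∀ y : ℝ, 1 ≤ y → |mwV V 2 y - 2 / δ * Real.log y| ≤ M)
    (hH : |hwV V 2 R - δ / 3 * Real.log R ^ 3| ≤ N * (1 + Real.log R) ^ 2) :
    (∀ b c : ℕ, |δ * Real.log R * (3 / 4) * TTV V R b c| ≤
      1 + 27 / 4 * δ * (4 / δ ^ 2 * N + (4 * M / δ + M ^ 2)) / Real.log R) ∧
    |δ * Real.log R * (3 / 4) * TTV V R 1 1 - 1| ≤
      27 / 4 * δ * (4 / δ ^ 2 * N + (4 * M / δ + M ^ 2)) / Real.log R := by
  obtain ⟨K2, hK2⟩ : ∃ K2, K2 = 4 * M / δ + M ^ 2 := ⟨_, rfl⟩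
  have hK2p : 0 < K2 := by rw [hK2]; positivity
  obtain ⟨K, hK⟩ : ∃ K, K = 4 / δ ^ 2 * N + K2 := ⟨_, rfl⟩
  have hKp : 0 < K := by rw [hK]; positivity
  rw [← hK2, ← hK]
  have hR1 : 1 < R := by linarith
  have hR0 : 0 < R := by linarith
  obtain ⟨L, hLe⟩ : ∃ L, L = Real.log R := ⟨_, rfl⟩
  have hLh : 1 / 2 ≤ L := by
    have ha := Real.log_two_gt_d9
    have hb : Real.log 2 ≤ Real.log R := Real.log_le_log (by norm_num) hR
    rw [hLe]
    linarith
  have hL : 0 < L := by linarith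
  have hX : (1 + L) ^ 2 ≤ 9 * L ^ 2 := by
    have ha : (1 + L) ^ 2 ≤ (3 * L) ^ 2 := pow_le_pow_left₀ (by linarith) (by linarith) 2
    calc (1 + L) ^ 2 ≤ (3 * L) ^ 2 := ha
      _ = 9 * L ^ 2 := by ring
  obtain ⟨S, hS⟩ : ∃ S, S = (Icc 1 ⌊R⌋₊).filter (fun n => n.Coprime V) := ⟨_, rfl⟩
  have hSm : ∀ g ∈ S, 1 ≤ g ∧ (g : ℝ) ≤ R := by
    intro g hg
    rw [hS, mem_filter, mem_Icc] at hg
    exact ⟨hg.1.1, (Nat.le_floor_iff hR0.le).1 hg.1.2⟩
  have hx : ∀ g ∈ S, 0 ≤ Real.log (R / g) := by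
    intro g hg
    obtain ⟨ha, hb⟩ := hSm g hg
    have hc : (0 : ℝ) < g := by exact_mod_cast ha
    exact Real.log_nonneg ((one_le_div hc).2 hb)
  obtain ⟨H0, hH0⟩ : ∃ H0, H0 = ∑ g ∈ S, 1 / (g : ℝ) := ⟨_, rfl⟩
  obtain ⟨H1, hH1⟩ : ∃ H1, H1 = ∑ g ∈ S, 1 / (g : ℝ) * Real.log (R / g) := ⟨_, rfl⟩
  have e2 : hwV V 2 R = ∑ g ∈ S, 1 / (g : ℝ) * Real.log (R / g) ^ 2 := by
    rw [hS]
    rfl
  -- the two sums
  obtain ⟨A, hA⟩ : ∃ A, A = ∑ g ∈ S, 1 / (g : ℝ) * (2 / δ * Real.log (R / g)) ^ 2 := ⟨_, rfl⟩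
  obtain ⟨E, hE⟩ : ∃ E, E = ∑ g ∈ S, 1 / (g : ℝ) *
      (M * (4 / δ * Real.log (R / g)) + M ^ 2) := ⟨_, rfl⟩
  have hA2 : A = 4 / δ ^ 2 * hwV V 2 R := by
    rw [hA, e2, Finset.mul_sum]
    exact Finset.sum_congr rfl fun g _ => by ring
  have hE2 : E = 4 * M / δ * H1 + M ^ 2 * H0 := by
    rw [hE, hH1, hH0, Finset.mul_sum, Finset.mul_sum, ← Finset.sum_add_distrib]
    exact Finset.sum_congr rfl fun g _ => by ring
  -- bounds
  have b00 : H0 ≤ 1 + L := by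
    have ha := harmonic_floor_le_one_add_log R hR1.le
    rw [← hLe] at ha
    refine le_trans ?_ ha
    rw [hH0, hS, harmonic_eq_sum_Icc]
    push_cast
    refine (Finset.sum_le_sum_of_subset_of_nonneg (Finset.filter_subset _ _) ?_).trans ?_
    · intro i _ _
      positivity
    · exact le_of_eq (Finset.sum_congr rfl fun i _ => one_div _)
  have b0 : H0 ≤ (1 + L) ^ 2 := by
    have : (1 + L) ^ 2 = (1 + L) + L * (1 + L) := by ring
    have h7 : 0 ≤ L * (1 + L) := by positivity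
    linarith
  have b1 : H1 ≤ (1 + L) ^ 2 := by
    have ha : H1 ≤ L * H0 := by
      rw [hH1, hH0, Finset.mul_sum]
      refine Finset.sum_le_sum fun g hg => ?_
      obtain ⟨hg1, hgR⟩ := hSm g hg
      have hg0 : (0 : ℝ) < g := by exact_mod_cast hg1
      rw [mul_comm L]
      refine mul_le_mul_of_nonneg_left ?_ (by positivity)
      rw [hLe]
      refine Real.log_le_log (div_pos hR0 hg0) ?_
      exact div_le_self hR0.le (by exact_mod_cast hg1)
    have hb : L * H0 ≤ L * (1 + L) := mul_le_mul_of_nonneg_left b00 hL.le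
    have : (1 + L) ^ 2 = (1 + L) + L * (1 + L) := by ring
    linarith
  have b2 : |A - 4 / (3 * δ) * L ^ 3| ≤ 4 / δ ^ 2 * N * (1 + L) ^ 2 := by
    rw [← hLe] at hH
    have hb : A - 4 / (3 * δ) * L ^ 3 = 4 / δ ^ 2 * (hwV V 2 R - δ / 3 * L ^ 3) := by
      rw [hA2]
      field_simp
    rw [hb, abs_mul, abs_of_pos (show 0 < 4 / δ ^ 2 by positivity), mul_assoc]
    exact mul_le_mul_of_nonneg_left hH (by positivity)
  have b3 : E ≤ K2 * (1 + L) ^ 2 := by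
    rw [hE2, hK2]
    have ha := mul_le_mul_of_nonneg_left b1 (show 0 ≤ 4 * M / δ by positivity)
    have hb := mul_le_mul_of_nonneg_left b0 (sq_nonneg M)
    linarith
  have hE0 : 0 ≤ E := by
    rw [hE]
    refine Finset.sum_nonneg fun g hg => ?_
    have := hx g hg
    positivity
  have b2' := abs_le.1 b2
  have hTT : ∀ b c : ℕ, TTV V R b c =
      ∑ g ∈ S, 1 / (g : ℝ) * MMV V R (g * b) * MMV V R (g * c) := by
    intro b c
    rw [hS]
    rfl
  -- first estimate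
  have k1 : ∀ b c : ℕ, L ^ 4 * |TTV V R b c| ≤ A + E := by
    intro b c
    have ha : |TTV V R b c| ≤ ∑ g ∈ S, 1 / (g : ℝ) *
        ((2 / δ * Real.log (R / g) + M) / L ^ 2) ^ 2 := by
      rw [hTT]
      refine (Finset.abs_sum_le_sum_abs _ _).trans (Finset.sum_le_sum fun g hg => ?_)
      obtain ⟨hg1, hgR⟩ := hSm g hg
      have hg0 : (0 : ℝ) < g := by exact_mod_cast hg1
      have m1 := TTb_abs h1 V hV R M δ hR1 hδ hM0 hM g b hg1 hgR
      have m2 := TTb_abs h1 V hV R M δ hR1 hδ hM0 hM g c hg1 hgR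
      rw [← hLe] at m1 m2
      rw [abs_mul, abs_mul, abs_of_pos (show 0 < 1 / (g : ℝ) by positivity), mul_assoc, pow_two]
      refine mul_le_mul_of_nonneg_left ?_ (by positivity)
      exact mul_le_mul m1 m2 (abs_nonneg _) ((abs_nonneg _).trans m1)
    calc L ^ 4 * |TTV V R b c| ≤ L ^ 4 * ∑ g ∈ S, 1 / (g : ℝ) *
        ((2 / δ * Real.log (R / g) + M) / L ^ 2) ^ 2 :=
          mul_le_mul_of_nonneg_left ha (by positivity)
      _ = A + E := by
          rw [hA, hE, Finset.mul_sum, ← Finset.sum_add_distrib]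
          refine Finset.sum_congr rfl fun g _ => ?_
          field_simp
          ring
  -- second estimate
  have k2 : |L ^ 4 * TTV V R 1 1 - A| ≤ E := by
    have ha : L ^ 4 * TTV V R 1 1 - A = ∑ g ∈ S, 1 / (g : ℝ) *
        (mwV V 2 (R / g) ^ 2 - (2 / δ * Real.log (R / g)) ^ 2) := by
      rw [hTT, hA, Finset.mul_sum, ← Finset.sum_sub_distrib]
      refine Finset.sum_congr rfl fun g hg => ?_
      obtain ⟨hg1, hgR⟩ := hSm g hg
      rw [mul_one, h1 V R g hR1 hV, if_pos ⟨hg1, hgR⟩, ← hLe]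
      field_simp
    rw [ha, hE]
    refine (Finset.abs_sum_le_sum_abs _ _).trans (Finset.sum_le_sum fun g hg => ?_)
    obtain ⟨hg1, hgR⟩ := hSm g hg
    have hg0 : (0 : ℝ) < g := by exact_mod_cast hg1
    have hxg := hx g hg
    rw [abs_mul, abs_of_pos (show 0 < 1 / (g : ℝ) by positivity)]
    refine mul_le_mul_of_nonneg_left ?_ (by positivity)
    have m1 := hM (R / g) ((one_le_div hg0).2 hgR)
    have e3 : mwV V 2 (R / g) ^ 2 - (2 / δ * Real.log (R / g)) ^ 2 =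
        (mwV V 2 (R / g) - 2 / δ * Real.log (R / g)) *
        ((mwV V 2 (R / g) - 2 / δ * Real.log (R / g)) + 4 / δ * Real.log (R / g)) := by ring
    rw [e3, abs_mul]
    have m2 : |(mwV V 2 (R / g) - 2 / δ * Real.log (R / g)) + 4 / δ * Real.log (R / g)| ≤
        M + 4 / δ * Real.log (R / g) := by
      refine (abs_add_le _ _).trans (add_le_add m1 (le_of_eq (abs_of_nonneg ?_)))
      positivity
    calc _ ≤ M * (M + 4 / δ * Real.log (R / g)) :=
          mul_le_mul m1 m2 (abs_nonneg _) hM0.le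
      _ = _ := by ring
  have hfac : δ * L * (3 / 4) * (4 / (3 * δ) * L ^ 3) = L ^ 4 := by
    field_simp
  have hKX : K * (1 + L) ^ 2 ≤ K * (9 * L ^ 2) := mul_le_mul_of_nonneg_left hX hKp.le
  have hδL : 0 < δ * L * (3 / 4) := by positivity
  have hL4 : 0 < L ^ 4 := by positivity
  rw [← hLe]
  constructor
  · intro b c
    have hk : L ^ 4 * |TTV V R b c| ≤ 4 / (3 * δ) * L ^ 3 + K * (9 * L ^ 2) := by
      have := k1 b c
      rw [hK] at hKX ⊢
      linarith [b2'.2]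
    rw [abs_mul, abs_of_pos hδL]
    have h6 : L ^ 4 * (δ * L * (3 / 4) * |TTV V R b c|) ≤ L ^ 4 * (1 + 27 / 4 * δ * K / L) := by
      calc L ^ 4 * (δ * L * (3 / 4) * |TTV V R b c|)
          = δ * L * (3 / 4) * (L ^ 4 * |TTV V R b c|) := by ring
        _ ≤ δ * L * (3 / 4) * (4 / (3 * δ) * L ^ 3 + K * (9 * L ^ 2)) :=
            mul_le_mul_of_nonneg_left hk hδL.le
        _ = L ^ 4 + δ * L * (3 / 4) * (K * (9 * L ^ 2)) := by rw [mul_add, hfac]
        _ = L ^ 4 * (1 + 27 / 4 * δ * K / L) := by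
            field_simp
            ring
    exact le_of_mul_le_mul_left h6 hL4
  · have hk : |L ^ 4 * TTV V R 1 1 - 4 / (3 * δ) * L ^ 3| ≤ K * (9 * L ^ 2) := by
      have k2' := abs_le.1 k2
      rw [hK] at hKX ⊢
      rw [abs_le]
      constructor
      · linarith [b2'.1, k2'.1]
      · linarith [b2'.2, k2'.2]
    have h6 : L ^ 4 * |δ * L * (3 / 4) * TTV V R 1 1 - 1| ≤ L ^ 4 * (27 / 4 * δ * K / L) := by
      have h7 : L ^ 4 * (δ * L * (3 / 4) * TTV V R 1 1 - 1) =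
          δ * L * (3 / 4) * (L ^ 4 * TTV V R 1 1 - 4 / (3 * δ) * L ^ 3) := by
        rw [mul_sub (δ * L * (3 / 4)), hfac]
        ring
      calc L ^ 4 * |δ * L * (3 / 4) * TTV V R 1 1 - 1|
          = |L ^ 4 * (δ * L * (3 / 4) * TTV V R 1 1 - 1)| := by
            rw [abs_mul, abs_of_pos hL4]
        _ = δ * L * (3 / 4) * |L ^ 4 * TTV V R 1 1 - 4 / (3 * δ) * L ^ 3| := by
            rw [h7, abs_mul, abs_of_pos hδL]
        _ ≤ δ * L * (3 / 4) * (K * (9 * L ^ 2)) := mul_le_mul_of_nonneg_left hk hδL.le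
        _ = L ^ 4 * (27 / 4 * δ * K / L) := by
            field_simp
            ring
    exact le_of_mul_le_mul_left h6 hL4

theorem pTTb (h1 : S_MR) (h2 : S_M2) (h3 : S_Dl) (h4 : S_Hw2) : S_TTb := by
  obtain ⟨C2, hC2, hM⟩ := h2
  obtain ⟨C3, hC3, hH2⟩ := h4
  refine ⟨27 / 4 * (8 * C3 + 4 * C2 + C2 ^ 2), by positivity, fun V R hV hR => ?_⟩
  have hv : 0 ≤ Real.log V := Real.log_natCast_nonneg V
  obtain ⟨v, hve⟩ : ∃ v : ℝ, v = 1 + Real.log V := ⟨_, rfl⟩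
  have hv1 : 1 ≤ v := by rw [hve]; linarith
  have hδ := dlV_pos hV
  have hδ1 := dlV_le_one V
  have hinv : 1 / dlV V ≤ 2 * v := by
    have := (h3 V hV).2.2
    rw [hve]
    linarith
  have hLp : 0 < Real.log R := Real.log_pos (by linarith)
  have core := TTb_core h1 V hV R (C2 * v ^ 3) (C3 * v ^ 4) (dlV V) hR hδ (by positivity)
    (by positivity) (fun y hy => by rw [hve]; exact hM V y hV hy)
    (by rw [hve]; exact hH2 V R hV (by linarith))
  have hbd : 27 / 4 * dlV V * (4 / dlV V ^ 2 * (C3 * v ^ 4) + (4 * (C2 * v ^ 3) / dlV V +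
      (C2 * v ^ 3) ^ 2)) / Real.log R ≤
      27 / 4 * (8 * C3 + 4 * C2 + C2 ^ 2) * v ^ 6 / Real.log R := by
    refine div_le_div_of_nonneg_right ?_ hLp.le
    have e1 : 27 / 4 * dlV V * (4 / dlV V ^ 2 * (C3 * v ^ 4) + (4 * (C2 * v ^ 3) / dlV V +
      (C2 * v ^ 3) ^ 2)) = 27 / 4 * (4 * C3 * v ^ 4 * (1 / dlV V) + 4 * C2 * v ^ 3 +
        dlV V * (C2 ^ 2 * v ^ 6)) := by
      field_simp
      ring
    rw [e1]
    have f1 : 4 * C3 * v ^ 4 * (1 / dlV V) ≤ 4 * C3 * v ^ 4 * (2 * v) :=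
      mul_le_mul_of_nonneg_left hinv (by positivity)
    have f2 : v ^ 5 ≤ v ^ 6 := pow_le_pow_right₀ hv1 (by norm_num)
    have f3 : v ^ 3 ≤ v ^ 6 := pow_le_pow_right₀ hv1 (by norm_num)
    have f4 : dlV V * (C2 ^ 2 * v ^ 6) ≤ C2 ^ 2 * v ^ 6 :=
      mul_le_of_le_one_left (by positivity) hδ1
    have f5 : 4 * C3 * v ^ 4 * (2 * v) = 8 * C3 * v ^ 5 := by ring
    have f6 : 8 * C3 * v ^ 5 ≤ 8 * C3 * v ^ 6 := mul_le_mul_of_nonneg_left f2 (by positivity)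
    have f7 : 4 * C2 * v ^ 3 ≤ 4 * C2 * v ^ 6 := mul_le_mul_of_nonneg_left f3 (by positivity)
    linarith
  rw [← hve]
  exact ⟨fun b c => (core.1 b c).trans (by linarith), core.2.trans hbd⟩

end Pool.Agent.Lib.MP_9f2731_nt.QL.Sw
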