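import Pool.Agent.Lib.MP_9f2731_nt.QL.Sw.Cor
import Pool.Agent.Lib.MP_9f2731_nt.QL.Sw.Dl
import Pool.Agent.Lib.MP_9f2731_nt.QL.Sw.Dns
import Pool.Agent.Lib.MP_9f2731_nt.QL.Sw.Exp
import Pool.Agent.Lib.MP_9f2731_nt.QL.Sw.Hw2
import Pool.Agent.Lib.MP_9f2731_nt.QL.Sw.HwE
import Pool.Agent.Lib.MP_9f2731_nt.QL.Sw.Inv
import Pool.Agent.Lib.MP_9f2731_nt.QL.Sw.LamP
import Pool.Agent.Lib.MP_9f2731_nt.QL.Sw.LocA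
import Pool.Agent.Lib.MP_9f2731_nt.QL.Sw.LocB
import Pool.Agent.Lib.MP_9f2731_nt.QL.Sw.LocC
import Pool.Agent.Lib.MP_9f2731_nt.QL.Sw.M2
import Pool.Agent.Lib.MP_9f2731_nt.QL.Sw.MR
import Pool.Agent.Lib.MP_9f2731_nt.QL.Sw.Moi
import Pool.Agent.Lib.MP_9f2731_nt.QL.Sw.Mom
import Pool.Agent.Lib.MP_9f2731_nt.QL.Sw.One
import Pool.Agent.Lib.MP_9f2731_nt.QL.Sw.Per
import Pool.Agent.Lib.MP_9f2731_nt.QL.Sw.SmB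
import Pool.Agent.Lib.MP_9f2731_nt.QL.Sw.Smc
import Pool.Agent.Lib.MP_9f2731_nt.QL.Sw.Sng
import Pool.Agent.Lib.MP_9f2731_nt.QL.Sw.Sum
import Pool.Agent.Lib.MP_9f2731_nt.QL.Sw.TTb
import Pool.Agent.Lib.MP_9f2731_nt.QL.Sw.ThZ
import Pool.Agent.Lib.MP_9f2731_nt.QL.Sw.The
import Pool.Agent.Lib.MP_9f2731_nt.QL.Sw.Ub
import Pool.Agent.Lib.MP_9f2731_nt.GP.Sv.All
import Pool.Agent.Lib.MP_9f2731_nt.GP.Rom.All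

/-!
MP_9f2731_nt, QL/Sw (helper78): correlations and moments of the majorant, uniformly in the modulus V.
-/

namespace Pool.Agent.Lib.MP_9f2731_nt.QL.Sw

open Pool.Agent.Lib.MP_9f2731_nt.GP

theorem swCor : CorVStmt := by
  have aExp := pExp (pUb pLamP) GP.Sv.pCrt
  have aPer := pPer pLamP pDns
  have aThe := pThe (pThZ pMoi)
  have aLocC := pLocC (pLocA pOne) (pLocB pOne) (GP.Sv.pLocD GP.Sv.pGg GP.Sv.pPex)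
  have aSum := pSum aPer aExp pInv aThe aLocC GP.Sv.pMas pSng
  have aHw2 := pHw2 pHwE pDl GP.Sv.pH2
  have vHw0 := GP.Sv.pHw0 GP.Sv.pHwE GP.Sv.pDl GP.Sv.pH0
  have vHw1 := GP.Sv.pHw1 GP.Sv.pHwE GP.Sv.pDl (GP.Sv.pH1 GP.Sv.pH0 (GP.Sv.pL1 GP.Sv.pLim))
  have vM0 := GP.Sv.pM0 GP.Sv.pMob (GP.Sv.pCnt GP.Sv.pDl)
  have vM1 := GP.Sv.pM1 GP.Sv.pMob vHw0 vM0 GP.Sv.pSq
  have vM2 := GP.Sv.pM2 GP.Sv.pMob vHw1 vM0 vM1 GP.Sv.pSq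
  have aM2 := pM2 pSmc pSmB pDl vM2
  exact pCor aSum (pTTb pMR aM2 pDl aHw2)

theorem swMom : MomVStmt :=
  pMom GP.Rom.pTot (GP.Rom.pLcm GP.Rom.pExp) GP.Rom.pCnb

end Pool.Agent.Lib.MP_9f2731_nt.QL.Sw
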