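import Pool.Agent.Lib.MP_9f2731_nt.QL.Sw.Base
import Pool.Agent.Lib.MP_9f2731_nt.GP.Sv.Spec
import Pool.Agent.Lib.MP_9f2731_nt.GP.Rom.Spec

/-!
MP_9f2731_nt, QL/Sw (helper78): the correlation estimate of GP/Sv (helper84) for a general modulus V, uniformly in
V: CorVStmt, and the moments MomVStmt.

RULES. Every `S_X` is proved in the file `QL/Sw/X.lean` (first line `import Pool.Agent.Lib.MP_9f2731_nt.QL.Sw.Spec`,
plus proved files named in the docstring, `namespace Pool.Agent.Lib.MP_9f2731_nt.QL.Sw`, `open Finset`, `open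
Pool.Agent.Lib.MP_9f2731_nt.GP Pool.Agent.Lib.MP_9f2731_nt.GP.Sv Pool.Agent.Lib.MP_9f2731_nt.QL`) as
`theorem pX : S_X`; the statements `S_Y` it uses are HYPOTHESES in the order of the docstring: `theorem pX (h : S_Y) :
S_X`. All tasks are independent. MOST MODULES ARE ADAPTATIONS OF PROVED FILES: copy `GP/Sv/X.lean` and replace Wp w by
V, Qs w R by QsV V R, Pq by PqV, nf by nfV, EE by EEV, MM by MMV, TT by TTV, dl by dlV, hw by hwV, mw by mwV, sqx by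
sqxV, not_dvd_Wm by not_dvd_Vm, the condition w < p by ¬ p ∣ V, Sm w m by SmV V m. Unchanged notions of GP/Sv (act,
mon, e, ind, chi, Ph, xx, zz, vv, gg, DD, FF, hs, Nm, Loc, Dep) are used as they are.
-/

open Finset

namespace Pool.Agent.Lib.MP_9f2731_nt.QL.Sw

open Pool.Agent.Lib.MP_9f2731_nt.GP
open Pool.Agent.Lib.MP_9f2731_nt.GP.Sv
open Pool.Agent.Lib.MP_9f2731_nt.QL

/-! ### Averages over b -/

/-- **LamP** (adaptation of GP/Sv/LamP.lean). Only squarefree divisors d ≤ R count; if d is squarefree and d ∣ n, every prime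
p ∣ d divides n, hence does not divide V, and p ≤ R, so p ∈ QsV V R, so d ∣ PqV V R. -/
def S_LamP : Prop := ∀ (V : ℕ) (R : ℝ) (n : ℕ), 1 < R → 1 ≤ n → n.Coprime V →
  Lam 2 R n = ∑ d ∈ (PqV V R).divisors,
    ((ArithmeticFunction.moebius d : ℤ) : ℝ) * ind d n * chi R d

/-- **Dns** (adaptation of GP/Sv/Dns.lean; the prime factors of the d i are sieving primes, so d i is prime to V * m i by
`not_dvd_Vm`). -/
def S_Dns : Prop := ∀ (ι : Type) [Fintype ι] (V : ℕ) (R : ℝ) (X : ℕ) (m d : ι → ℕ), 1 ≤ X →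
  (∀ i, SmV V (m i)) → (∀ i, d i ∣ PqV V R) →
  |(((Icc 1 X).filter (fun b => ∀ i, d i ∣ nfV V (m i) b)).card : ℝ) / X
    - (((range (PqV V R)).filter (fun b => ∀ i, d i ∣ nfV V (m i) b)).card : ℝ) / PqV V R| ≤ 1 / X

/-- **Per** (adaptation of GP/Sv/Per.lean; uses `S_LamP`, `S_Dns`). -/
def S_Per : Prop := ∀ (ι : Type) [Fintype ι] [DecidableEq ι] (V : ℕ) (R : ℝ) (X : ℕ) (m : ι → ℕ),
  1 < R → 1 ≤ X → (∀ i, SmV V (m i)) →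
  |(∑ b ∈ Icc 1 X, ∏ i, Lam 2 R (nfV V (m i) b)) / X
    - (∑ b ∈ range (PqV V R), ∏ i, Lam 2 R (nfV V (m i) b)) / PqV V R| ≤ R ^ (Fintype.card ι) / X

/-- **Ub** (adaptation of GP/Sv/Ub.lean; uses `S_LamP`). -/
def S_Ub : Prop := ∀ (ι : Type) [Fintype ι] [DecidableEq ι] (V : ℕ) (R : ℝ) (n : ι → ℕ), 1 < R →
  (∀ i, 1 ≤ n i ∧ (n i).Coprime V) →
  act (∏ p ∈ QsV V R, ∏ i, (1 - ind p (n i) • mon (e i p))) (Ph R ι) 1 = ∏ i, Lam 2 R (n i)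

/-- **Exp** (adaptation of GP/Sv/Exp.lean; uses `S_Ub`, `GP.Sv.S_Crt`). -/
def S_Exp : Prop := ∀ (ι : Type) [Fintype ι] [DecidableEq ι] (V : ℕ) (R : ℝ) (m : ι → ℕ), 1 < R →
  (∑ b ∈ range (PqV V R), ∏ i, Lam 2 R (nfV V (m i) b)) / PqV V R
    = act (∏ p ∈ QsV V R, EEV V m p) (Ph R ι) 1

/-! ### Local factors -/

/-- **One** (adaptation of GP/Sv/One.lean). -/
def S_One : Prop := ∀ V m p : ℕ, p.Prime → ¬ p ∣ V → SmV V m →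
  ∃ b0 < p, ∀ b < p, (p ∣ nfV V m b ↔ b = b0)

/-- **LocA** (adaptation of GP/Sv/LocA.lean; uses `S_One`). -/
def S_LocA : Prop := ∀ (σ : Type) [Fintype σ] [DecidableEq σ] (V p : ℕ) (m : σ → ℕ), p.Prime → ¬ p ∣ V →
  (∀ j, SmV V (m j)) → (∀ j k, j ≠ k → ¬ p ∣ Nat.dist (m j) (m k)) →
  EEV V (fun i : σ × Bool => m i.1) p = 1 + (1 / (p : ℝ)) • ∑ j, vv p j

/-- **LocB** (adaptation of GP/Sv/LocB.lean; uses `S_One`). -/
def S_LocB : Prop := ∀ (σ : Type) [Fintype σ] [DecidableEq σ] (V p : ℕ) (m : σ → ℕ), p.Prime → ¬ p ∣ V →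
  (∀ j, SmV V (m j)) → Nm (EEV V (fun i : σ × Bool => m i.1) p - 1)
    ((Fintype.card σ : ℝ) * (4 ^ Fintype.card σ + 1) / p)

/-- **LocC** (adaptation of GP/Sv/LocC.lean; uses `S_LocA`, `S_LocB`, `GP.Sv.S_LocD`). -/
def S_LocC : Prop := ∀ n : ℕ, ∃ C : ℝ, 0 < C ∧ ∀ (σ : Type) [Fintype σ] [DecidableEq σ] (V K p : ℕ)
  (m : σ → ℕ), Fintype.card σ ≤ n → 2 ≤ K → p.Prime → ¬ p ∣ V → (∀ j, SmV V (m j)) →
  Nm (EEV V (fun i : σ × Bool => m i.1) p * DD K p - 1) (C / p) ∧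
  ((∀ j k, j ≠ k → ¬ p ∣ Nat.dist (m j) (m k)) →
    Nm (EEV V (fun i : σ × Bool => m i.1) p * DD K p - 1) (C / (p : ℝ) ^ 2))

/-- **Sng** (adaptation of GP/Sv/Sng.lean; by the hypothesis on w all elements of QsV V R are greater than w). -/
def S_Sng : Prop := ∀ (C : ℝ) (V w : ℕ) (R : ℝ) (Δ : ℕ) (ε : ℕ → ℝ), 0 < C → 1 ≤ w → Δ ≠ 0 →
  (∀ p : ℕ, p.Prime → p ≤ w → p ∣ V) →
  (∀ p ∈ QsV V R, 0 ≤ ε p ∧ ε p ≤ C / p ∧ (¬ p ∣ Δ → ε p ≤ C / (p : ℝ) ^ 2)) →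
  ∏ p ∈ QsV V R, (1 + ε p) ≤ Real.exp (C / w) * singV C V Δ

/-! ### Inversion -/

/-- **Inv** (adaptation of GP/Sv/Inv.lean). -/
def S_Inv : Prop := ∀ (σ : Type) [Fintype σ] [DecidableEq σ] (V K : ℕ) (R : ℝ), R < 2 ^ K →
  act (∏ p ∈ QsV V R, (DD (σ := σ) K p * FF K p)) (Ph R (σ × Bool)) = Ph R (σ × Bool)

/-- **Moi** (adaptation of GP/Sv/Moi.lean). -/
def S_Moi : Prop := ∀ (V : ℕ) (R : ℝ) (b c : ℕ), 1 < R → 1 ≤ V →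
  ∑ h ∈ (PqV V R).divisors, ((ArithmeticFunction.moebius h : ℤ) : ℝ) / h * TTV V R (h * b) (h * c)
    = MMV V R b * MMV V R c

/-- **ThZ** (adaptation of GP/Sv/ThZ.lean; uses `S_Moi`). -/
def S_ThZ : Prop := ∀ (σ : Type) [Fintype σ] [DecidableEq σ] (V K : ℕ) (R : ℝ) (j : σ), 1 < R → 1 ≤ V →
  R < 2 ^ K → ∀ a : σ × Bool → ℕ,
  act (∏ p ∈ QsV V R, gg K (zz p j))
    (fun b => MMV V R (b (j, true)) * MMV V R (b (j, false))) a = TTV V R (a (j, true)) (a (j, false))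

/-- **The** (adaptation of GP/Sv/The.lean; uses `S_ThZ`). -/
def S_The : Prop := ∀ (σ : Type) [Fintype σ] [DecidableEq σ] (V K : ℕ) (R : ℝ), 1 < R → 1 ≤ V →
  R < 2 ^ K → ∀ a : σ × Bool → ℕ,
  act (∏ p ∈ QsV V R, FF K p) (Ph R (σ × Bool)) a = ∏ j : σ, TTV V R (a (j, true)) (a (j, false))

/-! ### Elementary sums, uniformly in V -/

/-- **HwE** (adaptation of GP/Sv/HwE.lean). -/
def S_HwE : Prop := ∀ (V k : ℕ) (y : ℝ), 1 ≤ V → 0 < y →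
  hwV V k y = ∑ d ∈ V.divisors, ((ArithmeticFunction.moebius d : ℤ) : ℝ) / d * hs k (y / d)

/-- **Dl** (100 lines) Proof. (1) `∑_{d ∣ V} μ(d)/d = φ(V)/V` for every V ≥ 1 (only squarefree divisors count; they are the divisors of
the product of the prime factors; `Nat.totient_eq_mul_prod_factors`; compare GP/Sv/Dl.lean, or `φ = μ * id`). (2) The sum over the divisors of |μ(d)|/d is
`∏_{p ∣ V} (1 + 1/p) ≤ ∏_{p ∣ V} p/(p-1) = V/φ(V)`. (3) For a finite set P of integers ≥ 2: `∏_{p ∈ P} p/(p-1) ≤ card P + 1` (induction: the largest element p is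
at least card P + 1, so p/(p-1) ≤ (card P + 1)/card P). With P = V.primeFactors, `2 ^ card P ≤ V`, `log 2 ≥ 1/2`. -/
def S_Dl : Prop := ∀ V : ℕ, 1 ≤ V →
  ∑ d ∈ V.divisors, ((ArithmeticFunction.moebius d : ℤ) : ℝ) / d = dlV V ∧
  ∑ d ∈ V.divisors, |((ArithmeticFunction.moebius d : ℤ) : ℝ)| / d ≤ 1 + 2 * Real.log V ∧
  1 / dlV V ≤ 1 + 2 * Real.log V

/-- **Hw2** (120 lines; uses `S_HwE`, `S_Dl`, `GP.Sv.S_H2`) Proof. Let l = log y ≥ 0, v = log V. By HwE and Dl (1): hwV V 2 y - (δ/3) l^3 = ∑_{d ∣ V} (μ(d)/d) (hs 2 (y/d) - (1/3) l^3). For d ≤ y: |hs 2 (y/d) - (1/3)(l - log d)^3| ≤ (l - log d)^2 + 1 ≤ (1 + l)^2 (H2).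
For d > y: hs 2 (y/d) = 0 (empty sum), and |(1/3)(l - log d)^3| ≤ (log d)^3/3 ≤ v^3. And |(l - log d)^3 - l^3| ≤ log d (l^2 + l |l - log d| + (l - log d)^2) ≤ 3 v (l + v)^2 ≤ 3 v (1 + v)^2 (1 + l)^2. So each bracket is ≤ 5 (1 + v)^3 (1 + l)^2 in absolute value, and the sum of |μ(d)|/d is ≤ 1 + 2v (Dl (2)). -/
def S_Hw2 : Prop := ∃ C : ℝ, 0 < C ∧ ∀ (V : ℕ) (y : ℝ), 1 ≤ V → 1 ≤ y →
  |hwV V 2 y - dlV V / 3 * Real.log y ^ 3| ≤ C * (1 + Real.log V) ^ 4 * (1 + Real.log y) ^ 2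

open Classical in
/-- **Smc** (120 lines) Proof. For n ≥ 1 write n = a b with a composed of primes dividing V and b prime to V (e.g. a = the product of p^(v_p(n)) over the primes p ∣ V). The divisors v of n with SmV V v are the divisors of a, and μ(n/v) = μ(a/v) μ(b) (a/v and b coprime); ∑_{v ∣ a} μ(a/v) = [a = 1],
so ∑_{v ∣ n, SmV V v} μ(n/v) = μ(n) if n is prime to V and 0 otherwise. Insert this into mwV V k y, n = v n', and exchange the sums: n' ≤ ⌊y⌋/v = ⌊y/v⌋ (`Nat.floor_div_natCast`), log (y/n) = log ((y/v)/n'). (mwV 1 k is the sum over all n.) -/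
def S_Smc : Prop := ∀ (V k : ℕ) (y : ℝ), 1 ≤ V → 1 ≤ y →
  mwV V k y = ∑ v ∈ (Icc 1 ⌊y⌋₊).filter (fun v => SmV V v), 1 / (v : ℝ) * mwV 1 k (y / v)

open Classical in
/-- **SmB** (150 lines) Proof. S(N) = the sum of 1/v over the v ≤ N with SmV V v. These v are factored numbers for the prime factors of V, and the sum of 1/v over all factored numbers is ∏_{p ∣ V} (1 - 1/p)^(-1) = 1/dlV V (`Nat.factoredNumbers`, `EulerProduct`: summable_and_hasSum_factoredNumbers_prod_filter_prime_geometric; or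
elementary: S(N) ≤ ∏_{p ∣ V} ∑_{j ≤ N} p^(-j), and this product of finite geometric sums is ≤ S(N') for N' = V^N): S(N) ≤ 1/dlV V, and S(N) → 1/dlV V. Let Λ(N) = ∑_{v ≤ N, SmV V v} (log v)/v: log v = ∑_{p^j ∣ v, j ≥ 1} log p, so Λ(N) ≤ ∑_{p ∣ V} log p ∑_{1 ≤ j ≤ N} p^(-j) S(N) ≤
(1/dlV V) ∑_{p ∣ V} (log p)/(p-1) ≤ (log V)/dlV V (∏_{p ∣ V} p ≤ V). Second claim: for N ≥ y: log y S(N) - ∑_{v ≤ y} (1/v) log(y/v) = log y (S(N) - S(⌊y⌋)) + Λ(⌊y⌋), which is ≥ 0 and ≤ Λ(N) (log y ≤ log v for v > y). Let N → ∞. -/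
def S_SmB : Prop := ∀ (V : ℕ) (y : ℝ), 1 ≤ V → 1 ≤ y →
  ∑ v ∈ (Icc 1 ⌊y⌋₊).filter (fun v => SmV V v), 1 / (v : ℝ) ≤ 1 / dlV V ∧
  |∑ v ∈ (Icc 1 ⌊y⌋₊).filter (fun v => SmV V v), 1 / (v : ℝ) * Real.log (y / v) - Real.log y / dlV V| ≤
    Real.log V / dlV V

/-- **M2** (80 lines; uses `S_Smc`, `S_SmB`, `S_Dl`, `GP.Sv.S_M2`) Proof. GP.Sv.S_M2 with w = 0: Wp 0 = primorial 0 = 1, dl 0 = 1, mw 0 2 t = mwV 1 2 t: |mwV 1 2 t - 2 log t| ≤ C0 for t ≥ 1. Smc: |mwV V 2 y - 2 ∑_v (1/v) log (y/v)| ≤ C0/dlV V, and SmB: the sum differs from (log y)/dlV V by at most (log V)/dlV V.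
Total ≤ (C0 + 2 log V)(1 + 2 log V) ≤ C (1 + log V)^3. -/
def S_M2 : Prop := ∃ C : ℝ, 0 < C ∧ ∀ (V : ℕ) (y : ℝ), 1 ≤ V → 1 ≤ y →
  |mwV V 2 y - 2 / dlV V * Real.log y| ≤ C * (1 + Real.log V) ^ 3

/-- **MR** (adaptation of GP/Sv/MR.lean). -/
def S_MR : Prop := ∀ (V : ℕ) (R : ℝ) (b : ℕ), 1 < R → 1 ≤ V →
  MMV V R b = if 1 ≤ b ∧ (b : ℝ) ≤ R then mwV V 2 (R / b) / Real.log R ^ 2 else 0

/-- **TTb** (adaptation of GP/Sv/TTb.lean, 250 lines; uses `S_MR`, `S_M2`, `S_Dl`, `S_Hw2`) Proof. Let L = log R ≥ log 2, δ = dlV V ∈ (0,1], v = 1 + log V ≥ 1, 1/δ ≤ 2 v. For g ≤ R, b ≥ 1 and g b ≤ R: |MMV V R (g b)| = |mwV V 2 (R/(g b))|/L^2 ≤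
((2/δ) log (R/(g b)) + C v^3)/L^2 ≤ ((2/δ) log (R/g) + C v^3)/L^2, and it is 0 in all other cases. So |TTV V R b c| ≤ L^(-4) ∑_g (1/g)((2/δ) log (R/g) + C v^3)^2 = L^(-4) ((4/δ^2) hwV V 2 R + (4 C v^3/δ) hwV V 1 R + C^2 v^6 hwV V 0 R), where hwV V 1 R ≤ L (1 + L), hwV V 0 R ≤ 1 + L (harmonic sum) and
hwV V 2 R ≤ (δ/3) L^3 + C v^4 (1 + L)^2. Multiply by (3/4) δ L: the main term is 1, the other terms are ≤ C' L^(-3) (1 + L)^2 (v^4/δ + v^3 + v^6) ≤ C'' v^6/L (1 + L ≤ 3 L). For b = c = 1: |mwV V 2 (R/g)^2 - ((2/δ) log (R/g))^2| ≤ C v^3 (2 (2/δ) log (R/g) + C v^3), so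
TTV V R 1 1 = L^(-4) (4/δ^2) hwV V 2 R + error, and the second claim follows in the same way. -/
def S_TTb : Prop := ∃ C : ℝ, 0 < C ∧ ∀ (V : ℕ) (R : ℝ), 1 ≤ V → 2 ≤ R →
  (∀ b c : ℕ, |dlV V * Real.log R * (3 / 4) * TTV V R b c| ≤ 1 + C * (1 + Real.log V) ^ 6 / Real.log R) ∧
  |dlV V * Real.log R * (3 / 4) * TTV V R 1 1 - 1| ≤ C * (1 + Real.log V) ^ 6 / Real.log R

/-! ### Assembly -/

/-- **Sum** (adaptation of GP/Sv/Sum.lean; uses `S_Per`, `S_Exp`, `S_Inv`, `S_The`, `S_LocC`, `GP.Sv.S_Mas`, `S_Sng`). -/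
def S_Sum : Prop := ∀ n : ℕ, ∃ C : ℝ, 0 < C ∧ ∀ (σ : Type) [Fintype σ] [DecidableEq σ] (V w : ℕ)
  (R T : ℝ) (X Δ : ℕ) (m : σ → ℕ), Fintype.card σ ≤ n → 1 ≤ w → 1 ≤ V →
  (∀ p : ℕ, p.Prime → p ≤ w → p ∣ V) → 1 < R → 1 ≤ X → Δ ≠ 0 →
  (∀ j, SmV V (m j)) → (∀ j k, j ≠ k → Nat.dist (m j) (m k) ∣ Δ) →
  (∀ b c : ℕ, |TTV V R b c| ≤ T) →
  |(∑ b ∈ Icc 1 X, ∏ j : σ, Lam 2 R (nfV V (m j) b) ^ 2) / X - TTV V R 1 1 ^ Fintype.card σ|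
    ≤ R ^ (2 * Fintype.card σ) / X + T ^ Fintype.card σ * (Real.exp (C / w) * singV C V Δ - 1)

/-- **Cor** (180 lines; uses `S_Sum`, `S_TTb`; compare GP/Sv/Cor.lean) Proof. Given J: κ = 1/(4 (J+1)), C1 from S_Sum for n = J, C2 from S_TTb. Let X ≥ C with C so large that R = X^κ ≥ 2. z = dlV V * log R * (3/4) > 0: nuV V R n = z Lam 2 R n ^ 2. σ = {m // m ∈ S}, Δ = Del S ≠ 0, n = card S ≤ J,
u = C2 (1 + log V)^6/log R = (C2/κ) (1 + log V)^6/log X ≤ C2/κ =: u0. T = (1 + u)/z. Multiply S_Sum by z^n: |mean of ∏ nuV - (z TTV 1 1)^n| ≤ z^n R^(2n)/X + (1 + u)^n (exp (C1/w) s - 1), s = singV C1 V Δ ≥ 1. (i) z^n R^(2n)/X ≤ (1 + log X)^J X^(1/2)/X ≤ C'/log X. (ii) |(z TTV 1 1)^n - 1| ≤ n (1 + u)^n u ≤ C' (1 + log V)^6/log X.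
(iii) (1 + u)^n ≤ (1 + u0)^J and exp(C1/w) s - 1 = exp(C1/w)(s - 1) + (exp(C1/w) - 1) ≤ exp(C1) (s - 1) + C1 exp(C1)/w. singV is monotone in C (take C ≥ C1). -/
def S_Cor : Prop := CorVStmt

/-- **Mom** (adaptation of GP/Rom/Mom.lean; uses `GP.Rom.TotStmt`, `GP.Rom.LcmStmt`, `GP.Rom.CnbStmt`) Proof. J = 0: the mean is 1 ≤ C (log X)^C (log 3 ≥ 1). J ≥ 1: κ ≤ 1/2, R = X^κ ≥ 1. V.totient/V ≤ 1, log R ≤ log X: nuV^J ≤ (log X)^J Lam^(2J). |Lam 2 R n| ≤ t(n) = the number of squarefree divisors d ≤ R of n.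
t(n)^(2J) = the number of tuples d of squarefree numbers ≤ ⌊R⌋ with lcm ∣ n. Sum over b with n = V m b + 1: by Cnb ≤ ∑_d (X/lcm d + 1) ≤ X ∏_{p ≤ R} (1 + 4^J/p) + R^(2J), R^(2J) ≤ X, and the product is ≤ B (1 + log X)^(4^J) (Tot for ⌊R⌋ ≥ 2; it is 1 for ⌊R⌋ = 1). So the mean is
≤ (log X)^J (B (1 + log X)^(4^J) + 1) ≤ C (log X)^C with C = J + 4^J + 1 + (B + 1) 2^(4^J) (1 + log X ≤ 2 log X, log X ≥ 1). -/
def S_Mom : Prop := MomVStmt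

end Pool.Agent.Lib.MP_9f2731_nt.QL.Sw
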