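import Pool.Agent.Lib.MP_9f2731_nt.GP.Sv.Base2
import Pool.Agent.Lib.MP_9f2731_nt.QL.Defs

/-!
MP_9f2731_nt, QL/Sw (helper78, after GP/Sv of helper84): definitions for a general modulus V, and their basic
properties. The sieving primes are the primes p ≤ R which do not divide V.
-/

open Finset

namespace Pool.Agent.Lib.MP_9f2731_nt.QL.Sw

open Pool.Agent.Lib.MP_9f2731_nt.GP
open Pool.Agent.Lib.MP_9f2731_nt.GP.Sv
open Pool.Agent.Lib.MP_9f2731_nt.QL

/-- the primes p ≤ R not dividing V -/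
noncomputable def QsV (V : ℕ) (R : ℝ) : Finset ℕ :=
  (range (⌊R⌋₊ + 1)).filter (fun p => p.Prime ∧ ¬ p ∣ V)

/-- their product -/
noncomputable def PqV (V : ℕ) (R : ℝ) : ℕ := ∏ p ∈ QsV V R, p

/-- the numbers `V b m + 1` -/
def nfV (V m b : ℕ) : ℕ := V * b * m + 1

/-- local factor at p: average over the residues -/
noncomputable def EEV {ι : Type} [Fintype ι] [DecidableEq ι] (V : ℕ) (m : ι → ℕ) (p : ℕ) : Al ι :=
  (1 / (p : ℝ)) • ∑ b ∈ range p, ∏ i, (1 - ind p (nfV V (m i) b) • mon (e i p))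

/-- `∑ μ(u)/u χ(u b)` over the u composed of sieving primes -/
noncomputable def MMV (V : ℕ) (R : ℝ) (b : ℕ) : ℝ :=
  ∑ u ∈ (PqV V R).divisors, ((ArithmeticFunction.moebius u : ℤ) : ℝ) / u * chi R (u * b)

/-- the correlation sum of one form -/
noncomputable def TTV (V : ℕ) (R : ℝ) (b c : ℕ) : ℝ :=
  ∑ g ∈ (Icc 1 ⌊R⌋₊).filter (fun n => n.Coprime V), 1 / (g : ℝ) * MMV V R (g * b) * MMV V R (g * c)

/-- φ(V)/V -/
noncomputable def dlV (V : ℕ) : ℝ := (V.totient : ℝ) / (V : ℝ)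

/-- harmonic sums over the numbers prime to V, with logarithmic weights -/
noncomputable def hwV (V k : ℕ) (y : ℝ) : ℝ :=
  ∑ n ∈ (Icc 1 ⌊y⌋₊).filter (fun n => n.Coprime V), 1 / (n : ℝ) * Real.log (y / n) ^ k

/-- Moebius sums with logarithmic weights over the numbers prime to V -/
noncomputable def mwV (V k : ℕ) (y : ℝ) : ℝ :=
  ∑ n ∈ (Icc 1 ⌊y⌋₊).filter (fun n => n.Coprime V),
    ((ArithmeticFunction.moebius n : ℤ) : ℝ) / n * Real.log (y / n) ^ k

/-! ### Basic properties -/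

theorem mem_QsV {V : ℕ} {R : ℝ} {p : ℕ} : p ∈ QsV V R ↔ p.Prime ∧ ¬ p ∣ V ∧ p ≤ ⌊R⌋₊ := by
  unfold QsV
  rw [mem_filter, mem_range]
  constructor
  · rintro ⟨h1, h2, h3⟩
    exact ⟨h2, h3, by omega⟩
  · rintro ⟨h1, h2, h3⟩
    exact ⟨by omega, h1, h2⟩

theorem PqV_ne {V : ℕ} {R : ℝ} : PqV V R ≠ 0 := by
  unfold PqV
  exact Finset.prod_ne_zero_iff.2 fun p hp => (mem_QsV.1 hp).1.ne_zero

theorem prime_dvd_PqV {V : ℕ} {R : ℝ} {p : ℕ} (hp : p.Prime) : p ∣ PqV V R ↔ p ∈ QsV V R := by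
  unfold PqV
  constructor
  · intro h
    obtain ⟨q, hq, h2⟩ := (Prime.dvd_finsetProd_iff hp.prime _).1 h
    rwa [(Nat.prime_dvd_prime_iff_eq hp (mem_QsV.1 hq).1).1 h2]
  · intro h
    exact Finset.dvd_prod_of_mem _ h

theorem PqV_primeFactors {V : ℕ} {R : ℝ} : (PqV V R).primeFactors = QsV V R := by
  ext p
  rw [Nat.mem_primeFactors]
  constructor
  · rintro ⟨h1, h2, -⟩
    exact (prime_dvd_PqV h1).1 h2
  · intro h
    exact ⟨(mem_QsV.1 h).1, (prime_dvd_PqV (mem_QsV.1 h).1).2 h, PqV_ne⟩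

theorem PqV_squarefree {V : ℕ} {R : ℝ} : Squarefree (PqV V R) := by
  have h : ∀ s : Finset ℕ, (∀ p ∈ s, p.Prime) → Squarefree (∏ p ∈ s, p) := by
    intro s
    induction s using Finset.induction_on with
    | empty => intro _; simp
    | insert p s hp ih =>
      intro h
      rw [Finset.prod_insert hp]
      refine (Nat.squarefree_mul ?_).2 ⟨(h p (mem_insert_self p s)).squarefree,
        ih fun q hq => h q (mem_insert_of_mem hq)⟩
      refine Nat.Coprime.prod_right fun q hq => ?_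
      refine (Nat.coprime_primes (h p (mem_insert_self p s)) (h q (mem_insert_of_mem hq))).2 ?_
      rintro rfl
      exact hp hq
  exact h _ fun p hp => (mem_QsV.1 hp).1

/-- expansion of the product over the sieving primes -/
theorem sqxV {A : Type} [CommRing A] (V : ℕ) (R : ℝ) (F : ℕ → A) (h1 : F 1 = 1)
    (hm : ∀ m n : ℕ, m.Coprime n → F (m * n) = F m * F n) :
    ∏ p ∈ QsV V R, (1 - F p)
      = ∑ d ∈ (PqV V R).divisors, ((ArithmeticFunction.moebius d : ℤ) : A) * F d := by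
  classical
  let G : ArithmeticFunction A := ⟨fun n => if n = 0 then 0 else F n, by simp⟩
  have hG : ∀ n : ℕ, n ≠ 0 → G n = F n := fun n hn => by
    show (if n = 0 then 0 else F n) = F n
    rw [if_neg hn]
  have hmul : G.IsMultiplicative := by
    refine ⟨by rw [hG 1 one_ne_zero, h1], fun {m n} hmn => ?_⟩
    by_cases hm0 : m = 0
    · subst hm0
      simp
    by_cases hn0 : n = 0
    · subst hn0
      simp
    rw [hG _ (mul_ne_zero hm0 hn0), hG _ hm0, hG _ hn0, hm m n hmn]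
  have := hmul.prodPrimeFactors_one_sub_of_squarefree G PqV_squarefree (n := PqV V R)
  rw [PqV_primeFactors] at this
  have h2 : ∏ p ∈ QsV V R, (1 - F p) = ∏ p ∈ QsV V R, (1 - G p) :=
    Finset.prod_congr rfl fun p hp => by rw [hG p (mem_QsV.1 hp).1.ne_zero]
  rw [h2, this]
  refine Finset.sum_congr rfl fun d hd => ?_
  rw [hG d (Nat.pos_of_mem_divisors hd).ne']

/-- `nfV V m b` is prime to V -/
theorem nfV_coprime (V m b : ℕ) : (nfV V m b).Coprime V := by
  unfold nfV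
  rw [mul_assoc]
  exact (Nat.coprime_mul_left_add_left 1 V (b * m)).2 (Nat.coprime_one_left _)

theorem nfV_pos (V m b : ℕ) : 1 ≤ nfV V m b := Nat.le_add_left _ _

/-- a sieving prime does not divide `V * m` -/
theorem not_dvd_Vm {V m p : ℕ} (hm : SmV V m) (hp : p.Prime) (hV : ¬ p ∣ V) : ¬ p ∣ V * m := by
  intro h
  rcases (Nat.Prime.dvd_mul hp).1 h with h | h
  · exact hV h
  · exact hV (hm.2 p hp h)

theorem dlV_pos {V : ℕ} (hV : 1 ≤ V) : 0 < dlV V := by
  unfold dlV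
  have h1 : (0 : ℝ) < V.totient := by exact_mod_cast Nat.totient_pos.2 hV
  have h2 : (0 : ℝ) < V := by exact_mod_cast hV
  exact div_pos h1 h2

theorem dlV_le_one (V : ℕ) : dlV V ≤ 1 := by
  unfold dlV
  rcases Nat.eq_zero_or_pos V with rfl | hV
  · simp
  · have h2 : (0 : ℝ) < V := by exact_mod_cast hV
    rw [div_le_one h2]
    exact_mod_cast Nat.totient_le _

end Pool.Agent.Lib.MP_9f2731_nt.QL.Sw
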