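import Pool.Agent.Lib.MP_9f2731_nt.QL.Sw.Spec
import Pool.Agent.Lib.MP_9f2731_nt.GP.Sv.Cor

/-!
MP_9f2731_nt, QL/Sw/Cor: the correlation estimate, uniformly in the modulus V.
-/

open Finset

namespace Pool.Agent.Lib.MP_9f2731_nt.QL.Sw

open Pool.Agent.Lib.MP_9f2731_nt.GP
open Pool.Agent.Lib.MP_9f2731_nt.GP.Sv
open Pool.Agent.Lib.MP_9f2731_nt.QL

private theorem Cor_one {C : ℝ} (hC : 0 ≤ C) (V n : ℕ) : 1 ≤ singV C V n := by
  unfold singV
  calc (1 : ℝ) = ∏ p ∈ n.primeFactors.filter (fun p => ¬ p ∣ V), (1 : ℝ) := by simp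
    _ ≤ ∏ p ∈ n.primeFactors.filter (fun p => ¬ p ∣ V), (1 + C / (p : ℝ)) := by
        refine Finset.prod_le_prod (fun _ _ => zero_le_one) fun p _ => ?_
        have : 0 ≤ C / (p : ℝ) := div_nonneg hC (Nat.cast_nonneg _)
        linarith

private theorem Cor_mono {C D : ℝ} (hC : 0 ≤ C) (h : C ≤ D) (V n : ℕ) :
    singV C V n ≤ singV D V n := by
  unfold singV
  refine Finset.prod_le_prod (fun p _ => ?_) fun p _ => ?_
  · have : 0 ≤ C / (p : ℝ) := div_nonneg hC (Nat.cast_nonneg _)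
    linarith
  · have : C / (p : ℝ) ≤ D / (p : ℝ) := div_le_div_of_nonneg_right h (Nat.cast_nonneg _)
    linarith

private theorem Cor_ber (u : ℝ) (hu : 0 ≤ u) (n : ℕ) : (1 + u) ^ n - 1 ≤ n * (1 + u) ^ n * u := by
  induction n with
  | zero => simp
  | succ n ih =>
    have h1 : 1 ≤ (1 + u) ^ n := one_le_pow₀ (by linarith)
    have h2 : (1 + u) ^ (n + 1) = (1 + u) ^ n * (1 + u) := pow_succ _ _
    have h3 : 0 ≤ (n : ℝ) * (1 + u) ^ n * u * u := by positivity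
    have h4 : 0 ≤ (1 + u) ^ n * u * u := by positivity
    push_cast
    rw [h2]
    nlinarith

theorem pCor (h1 : S_Sum) (h2 : S_TTb) : S_Cor := by
  intro J
  obtain ⟨C1, hC1, hsum⟩ := h1 J
  obtain ⟨C2, hC2, htt⟩ := h2
  have hJ1 : (0 : ℝ) < 4 * ((J : ℝ) + 1) := by positivity
  obtain ⟨κ, hκd⟩ : ∃ κ : ℝ, κ = 1 / (4 * (J + 1)) := ⟨_, rfl⟩
  have hκ : 0 < κ := by rw [hκd]; positivity
  have hκ1 : κ ≤ 1 := by
    rw [hκd, div_le_one hJ1]
    linarith [(Nat.cast_nonneg J : (0 : ℝ) ≤ J)]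
  obtain ⟨X0, hX0⟩ := Cor_lim J one_pos
  obtain ⟨X1, hX1⟩ := Cor_lim (J + 1) one_pos
  obtain ⟨u0, hu0⟩ : ∃ u0 : ℝ, u0 = C2 / κ := ⟨_, rfl⟩
  have hu0p : 0 < u0 := by rw [hu0]; positivity
  obtain ⟨B, hB⟩ : ∃ B : ℝ, B = (1 + u0) ^ J := ⟨_, rfl⟩
  have hBp : 1 ≤ B := by rw [hB]; exact one_le_pow₀ (by linarith)
  have hE : 1 ≤ Real.exp C1 := Real.one_le_exp hC1.le
  obtain ⟨C, hC⟩ : ∃ C : ℝ, C = C1 + |X0| + |X1| + Real.exp (Real.log 2 / κ) +
      (1 + J * B * u0) + B * Real.exp C1 + B * (C1 * Real.exp C1) := ⟨_, rfl⟩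
  have g0 := abs_nonneg X0
  have g1 := abs_nonneg X1
  have g2 := (Real.exp_pos (Real.log 2 / κ)).le
  have g3 : 0 ≤ J * B * u0 := by positivity
  have g4 : 0 ≤ B * Real.exp C1 := by positivity
  have g5 : 0 ≤ B * (C1 * Real.exp C1) := by positivity
  have c1 : C1 ≤ C := by rw [hC]; linarith
  have c2 : X0 ≤ C := by rw [hC]; linarith [le_abs_self X0]
  have c3 : X1 ≤ C := by rw [hC]; linarith [le_abs_self X1]
  have c4 : Real.exp (Real.log 2 / κ) ≤ C := by rw [hC]; linarith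
  have c5 : 1 + J * B * u0 ≤ C := by rw [hC]; linarith
  have c6 : B * Real.exp C1 ≤ C := by rw [hC]; linarith
  have c7 : B * (C1 * Real.exp C1) ≤ C := by rw [hC]; linarith
  have hCp : 0 < C := lt_of_lt_of_le hC1 c1
  refine ⟨κ, C, hκ, ?_, hCp, ?_⟩
  · rw [hκd, mul_one_div, div_le_one hJ1]
    linarith [(Nat.cast_nonneg J : (0 : ℝ) ≤ J)]
  intro X V w S hX hw hV hwV hlogV hS hSm
  obtain ⟨hX1', -⟩ := hX0 X (c2.trans hX)
  obtain ⟨-, herr⟩ := hX1 X (c3.trans hX)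
  have hXpos : (0 : ℝ) < X := by linarith
  have hXn : 1 ≤ X := by exact_mod_cast hX1'
  have hw0 : (0 : ℝ) < w := by exact_mod_cast hw
  have hv : 0 ≤ Real.log V := Real.log_natCast_nonneg V
  obtain ⟨v6, hv6⟩ : ∃ v6 : ℝ, v6 = (1 + Real.log V) ^ 6 := ⟨_, rfl⟩
  have hv61 : 1 ≤ v6 := by rw [hv6]; exact one_le_pow₀ (by linarith)
  rw [← hv6] at hlogV ⊢
  have hlX : 1 ≤ Real.log X := hv61.trans hlogV
  have hlXp : 0 < Real.log X := by linarith
  obtain ⟨R, hRdef⟩ : ∃ R : ℝ, R = (X : ℝ) ^ κ := ⟨_, rfl⟩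
  obtain ⟨L, hLdef⟩ : ∃ L : ℝ, L = Real.log R := ⟨_, rfl⟩
  have hLX : L = κ * Real.log X := by rw [hLdef, hRdef, Real.log_rpow hXpos]
  have hL2 : Real.log 2 ≤ L := by
    have h5 : Real.log 2 / κ ≤ Real.log X := by
      rw [Real.le_log_iff_exp_le hXpos]
      exact c4.trans hX
    rw [div_le_iff₀ hκ] at h5
    rw [hLX]
    linarith
  have hLpos : 0 < L := (Real.log_pos one_lt_two).trans_le hL2
  have hR0 : 0 < R := by
    rw [hRdef]
    exact Real.rpow_pos_of_pos hXpos _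
  have hR2 : 2 ≤ R := by
    rw [hLdef] at hL2
    exact (Real.log_le_log_iff two_pos hR0).1 hL2
  have hR1 : 1 < R := by linarith
  obtain ⟨u, hu⟩ : ∃ u : ℝ, u = C2 * v6 / L := ⟨_, rfl⟩
  have hu1 : u = u0 * (v6 / Real.log X) := by
    rw [hu, hu0, hLX]
    field_simp
  have hr1 : v6 / Real.log X ≤ 1 := (div_le_one hlXp).2 hlogV
  have hr0 : 0 < v6 / Real.log X := by positivity
  have hup : 0 ≤ u := by rw [hu1]; positivity
  have huu : u ≤ u0 := by
    rw [hu1]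
    exact mul_le_of_le_one_right hu0p.le hr1
  obtain ⟨hb1, hb2⟩ := htt V R hV hR2
  obtain ⟨z, hz⟩ : ∃ z : ℝ, z = dlV V * Real.log R * (3 / 4) := ⟨_, rfl⟩
  rw [← hz, ← hLdef, ← hv6, ← hu] at hb1 hb2
  have hdp := dlV_pos hV
  have hzpos : 0 < z := by
    rw [hz, ← hLdef]
    positivity
  have hzle : z ≤ 1 + Real.log X := by
    have h5 : z ≤ L := by
      rw [hz, ← hLdef]
      have h7 : dlV V * L ≤ L := mul_le_of_le_one_left hLpos.le (dlV_le_one V)
      linarith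
    have h7 : L ≤ Real.log X := by
      rw [hLX]
      exact mul_le_of_le_one_left hlXp.le hκ1
    linarith
  obtain ⟨T, hT⟩ : ∃ T : ℝ, T = (1 + u) / z := ⟨_, rfl⟩
  have hTT : ∀ b c : ℕ, |TTV V R b c| ≤ T := by
    intro b c
    have h5 := hb1 b c
    rw [abs_mul, abs_of_pos hzpos] at h5
    rw [hT, le_div_iff₀ hzpos]
    linarith
  have hzT : z * T = 1 + u := by
    rw [hT]
    field_simp
  have hcardS : Fintype.card {x // x ∈ S} = S.card := Fintype.card_coe S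
  have hmain := hsum {x // x ∈ S} V w R T X (Del S) (fun j => j.1) (by rw [hcardS]; exact hS) hw hV
    hwV hR1 hXn (Cor_Del_ne S) (fun j => hSm j.1 j.2)
    (fun j k hjk => Cor_Del_dvd S j.2 k.2 (fun e => hjk (Subtype.ext e))) hTT
  rw [hcardS] at hmain
  obtain ⟨n, hn⟩ : ∃ n, n = S.card := ⟨_, rfl⟩
  rw [← hn] at hmain hS
  -- the normalized average
  have hnu : ∀ b, ∏ m ∈ S, nuV V R (V * b * m + 1)
      = z ^ n * ∏ j : {x // x ∈ S}, Lam 2 R (nfV V j.1 b) ^ 2 := by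
    intro b
    rw [Finset.prod_coe_sort S (fun m => Lam 2 R (nfV V m b) ^ 2), hn, ← Finset.prod_const,
      ← Finset.prod_mul_distrib]
    refine Finset.prod_congr rfl fun m _ => ?_
    rw [hz]
    rfl
  have havg : (∑ b ∈ Icc 1 X, ∏ m ∈ S, nuV V R (V * b * m + 1)) / X
      = z ^ n * ((∑ b ∈ Icc 1 X, ∏ j : {x // x ∈ S}, Lam 2 R (nfV V j.1 b) ^ 2) / X) := by
    rw [Finset.sum_congr rfl fun b _ => hnu b, ← Finset.mul_sum, mul_div_assoc]
  rw [← hRdef, havg]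
  have hzn : 0 < z ^ n := pow_pos hzpos n
  have h5 := mul_le_mul_of_nonneg_left hmain hzn.le
  rw [← abs_of_pos hzn, ← abs_mul, abs_of_pos hzn, mul_sub, ← mul_pow] at h5
  have hpow : (1 + u) ^ n ≤ B := by
    calc (1 + u) ^ n ≤ (1 + u0) ^ n := pow_le_pow_left₀ (by linarith) (by linarith) n
      _ ≤ (1 + u0) ^ J := pow_le_pow_right₀ (by linarith) hS
      _ = B := hB.symm
  -- the main term
  have h6 : |(z * TTV V R 1 1) ^ n - 1| ≤ J * B * u0 * (v6 / Real.log X) := by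
    have h7 := (Cor_pow _ _ hb2 n).1
    have h8 := Cor_ber u hup n
    have hnJ : (n : ℝ) ≤ J := by exact_mod_cast hS
    have h9 : (n : ℝ) * (1 + u) ^ n * u ≤ J * B * u := by
      refine mul_le_mul_of_nonneg_right ?_ hup
      exact mul_le_mul hnJ hpow (by positivity) (Nat.cast_nonneg _)
    have h10 : J * B * u = J * B * u0 * (v6 / Real.log X) := by rw [hu1]; ring
    linarith
  -- the error of the averages
  have h9 : z ^ n * (R ^ (2 * n) / X) ≤ v6 / Real.log X := by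
    have hl : 1 ≤ 1 + Real.log X := by linarith
    have h10 : z ^ n ≤ (1 + Real.log X) ^ J :=
      (pow_le_pow_left₀ hzpos.le hzle n).trans (pow_le_pow_right₀ hl hS)
    have h11 : R ^ (2 * n) ≤ (X : ℝ) ^ (1 / 2 : ℝ) := by
      rw [hRdef, ← Real.rpow_natCast, ← Real.rpow_mul hXpos.le]
      refine Real.rpow_le_rpow_of_exponent_le hX1' ?_
      have hnJ : (n : ℝ) ≤ J := by exact_mod_cast hS
      push_cast
      rw [hκd, div_mul_eq_mul_div, one_mul, div_le_div_iff₀ hJ1 two_pos]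
      linarith
    have h12 : 0 ≤ (1 + Real.log X) ^ J := hzn.le.trans h10
    have h13 : z ^ n * (R ^ (2 * n) / X) ≤ (1 + Real.log X) ^ J * ((X : ℝ) ^ (1 / 2 : ℝ) / X) :=
      mul_le_mul h10 (div_le_div_of_nonneg_right h11 hXpos.le) (by positivity) h12
    have h14 : (1 + Real.log X) ^ J * ((X : ℝ) ^ (1 / 2 : ℝ) / X) ≤ 1 / Real.log X := by
      rw [le_div_iff₀ hlXp]
      refine le_trans ?_ herr
      have h15 : (1 + Real.log X) ^ (J + 1) * (X : ℝ) ^ (1 / 2 : ℝ) / X =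
          (1 + Real.log X) ^ J * ((X : ℝ) ^ (1 / 2 : ℝ) / X) * (1 + Real.log X) := by
        rw [pow_succ]
        ring
      rw [h15]
      refine mul_le_mul_of_nonneg_left (by linarith) ?_
      positivity
    have h16 : 1 / Real.log X ≤ v6 / Real.log X := div_le_div_of_nonneg_right hv61 hlXp.le
    linarith
  -- the singular factor
  have h13 : z ^ n * (T ^ n * (Real.exp (C1 / w) * singV C1 V (Del S) - 1))
      ≤ C * (1 / w) + C * (singV C V (Del S) - 1) := by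
    rw [← mul_assoc, ← mul_pow, hzT]
    have hs1 := Cor_one hC1.le V (Del S)
    have hs2 := Cor_mono hC1.le c1 V (Del S)
    have hE1 : 1 ≤ Real.exp (C1 / w) := Real.one_le_exp (by positivity)
    have hcw : C1 / w ≤ C1 := div_le_self hC1.le (by exact_mod_cast hw)
    have hE2 : Real.exp (C1 / w) ≤ Real.exp C1 := Real.exp_le_exp.2 hcw
    have hE3 : Real.exp (C1 / w) - 1 ≤ C1 * Real.exp C1 * (1 / w) := by
      have e1 : 1 - C1 / w ≤ Real.exp (-(C1 / w)) := by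
        have := Real.add_one_le_exp (-(C1 / (w : ℝ)))
        linarith
      have e2 : Real.exp (C1 / w) * Real.exp (-(C1 / w)) = 1 := by
        rw [← Real.exp_add]
        simp
      have e3 := mul_le_mul_of_nonneg_left e1 (Real.exp_pos (C1 / w)).le
      rw [e2] at e3
      have e4 : Real.exp (C1 / w) * (C1 / w) ≤ Real.exp C1 * (C1 / w) :=
        mul_le_mul_of_nonneg_right hE2 (by positivity)
      have e5 : Real.exp C1 * (C1 / w) = C1 * Real.exp C1 * (1 / w) := by ring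
      linarith
    have hA : 0 ≤ Real.exp (C1 / w) * singV C1 V (Del S) - 1 := by nlinarith
    have hs0 : 0 ≤ singV C1 V (Del S) - 1 := by linarith
    have hB2 : Real.exp (C1 / w) * singV C1 V (Del S) - 1
        ≤ Real.exp C1 * (singV C1 V (Del S) - 1) + C1 * Real.exp C1 * (1 / w) := by
      have := mul_le_mul_of_nonneg_right hE2 hs0
      linarith
    have hD : (1 + u) ^ n * (Real.exp (C1 / w) * singV C1 V (Del S) - 1)
        ≤ B * (Real.exp C1 * (singV C1 V (Del S) - 1) + C1 * Real.exp C1 * (1 / w)) :=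
      mul_le_mul hpow hB2 hA (by linarith)
    have hF : B * Real.exp C1 * (singV C1 V (Del S) - 1) ≤ C * (singV C V (Del S) - 1) :=
      mul_le_mul c6 (by linarith) hs0 hCp.le
    have hG : B * (C1 * Real.exp C1) * (1 / (w : ℝ)) ≤ C * (1 / w) :=
      mul_le_mul_of_nonneg_right c7 (by positivity)
    linarith
  have h14 := abs_sub_le
    (z ^ n * ((∑ b ∈ Icc 1 X, ∏ j : {x // x ∈ S}, Lam 2 R (nfV V j.1 b) ^ 2) / X))
    ((z * TTV V R 1 1) ^ n) 1
  rw [mul_add] at h5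
  have h15 := mul_le_mul_of_nonneg_right c5 hr0.le
  linarith

end Pool.Agent.Lib.MP_9f2731_nt.QL.Sw
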