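import Pool.Agent.Lib.MP_9f2731_nt.QL.Sw.Spec

/-!
MP_9f2731_nt, QL/Sw, module LocA (helper44): the local factor at a good prime.
-/

open Finset

open Pool.Agent.Lib.MP_9f2731_nt.GP Pool.Agent.Lib.MP_9f2731_nt.GP.Sv Pool.Agent.Lib.MP_9f2731_nt.QL

namespace Pool.Agent.Lib.MP_9f2731_nt.QL.Sw

private theorem locA_ind (p n : ℕ) : ind p n = 0 ∨ ind p n = 1 := by
  unfold ind
  split_ifs <;> simp

private theorem locA_pair {ι : Type} (c : ℝ) (hc : c = 0 ∨ c = 1) (X Y : Al ι) :
    (1 - c • X) * (1 - c • Y) = 1 + c • (X * Y - X - Y) := by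
  rcases hc with rfl | rfl
  · simp
  · simp only [one_smul]
    ring

/-- two different forms are not both divisible by p -/
private theorem locA_uniq {V p a b c : ℕ} (hp : p.Prime) (hw : ¬ p ∣ V) (hd : ¬ p ∣ Nat.dist a c)
    (h1 : p ∣ nfV V a b) (h2 : p ∣ nfV V c b) : False := by
  have key : ∀ a c : ℕ, a ≤ c → ¬ p ∣ Nat.dist a c → p ∣ nfV V a b → p ∣ nfV V c b → False := by
    intro a c hac hd h1 h2
    obtain ⟨d, rfl⟩ := Nat.exists_eq_add_of_le hac
    have h3 : Nat.dist a (a + d) = d := by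
      rw [Nat.dist_eq_sub_of_le (Nat.le_add_right a d)]
      omega
    rw [h3] at hd
    have h4 : nfV V (a + d) b = nfV V a b + V * b * d := by
      unfold nfV
      ring
    rw [h4] at h2
    have h5 : p ∣ V * b * d := (Nat.dvd_add_right h1).1 h2
    rcases (Nat.Prime.dvd_mul hp).1 h5 with h6 | h6
    · rcases (Nat.Prime.dvd_mul hp).1 h6 with h7 | h7
      · exact absurd h7 hw
      · have h8 : p ∣ V * b * a := Dvd.dvd.mul_right (Dvd.dvd.mul_left h7 _) _
        have h9 : p ∣ 1 := (Nat.dvd_add_right h8).1 h1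
        exact hp.one_lt.ne' (Nat.dvd_one.1 h9)
    · exact hd h6
  rcases le_total a c with h | h
  · exact key a c h hd h1 h2
  · rw [Nat.dist_comm] at hd
    exact key c a h hd h2 h1

theorem pLocA (h1 : S_One) : S_LocA := by
  intro σ _ _ V p m hp hw hm hd
  have hp0 : (p : ℝ) ≠ 0 := by exact_mod_cast hp.ne_zero
  -- the product for one b
  have hb : ∀ b ∈ range p, ∏ i : σ × Bool, (1 - ind p (nfV V (m i.1) b) • mon (e i p)) =
      1 + ∑ j : σ, ind p (nfV V (m j) b) • vv p j := by
    intro b _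
    rw [Fintype.prod_prod_type]
    have h2 : ∀ j : σ, ∏ s : Bool, ((1 : Al (σ × Bool)) - ind p (nfV V (m j) b) • mon (e (j, s) p))
        = 1 + ind p (nfV V (m j) b) • vv p j := by
      intro j
      rw [Fintype.prod_bool, locA_pair _ (locA_ind _ _)]
      rfl
    have h3 : (∏ j : σ, ∏ s : Bool, ((1 : Al (σ × Bool)) -
        ind p (nfV V (m (j, s).1) b) • mon (e (j, s) p))) =
        ∏ j : σ, (1 + ind p (nfV V (m j) b) • vv p j) := Finset.prod_congr rfl fun j _ => h2 j
    rw [h3]
    by_cases hex : ∃ j0, p ∣ nfV V (m j0) b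
    · obtain ⟨j0, hj0⟩ := hex
      have h4 : ∀ j, j ≠ j0 → ind p (nfV V (m j) b) = 0 := by
        intro j hj
        unfold ind
        rw [if_neg]
        intro h5
        exact locA_uniq hp hw (hd j j0 hj) h5 hj0
      rw [Finset.prod_eq_single j0 (fun j _ hj => by rw [h4 j hj]; simp)
        (fun h => absurd (mem_univ _) h),
        Finset.sum_eq_single j0 (fun j _ hj => by rw [h4 j hj]; simp)
        (fun h => absurd (mem_univ _) h)]
    · push Not at hex
      have h4 : ∀ j, ind p (nfV V (m j) b) = 0 := by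
        intro j
        unfold ind
        rw [if_neg (hex j)]
      simp [h4]
  -- the sum over b
  have hs : ∀ j : σ, ∑ b ∈ range p, ind p (nfV V (m j) b) = 1 := by
    intro j
    obtain ⟨b0, hb0, hb1⟩ := h1 V (m j) p hp hw (hm j)
    have h2 : ∀ b ∈ range p, ind p (nfV V (m j) b) = if b = b0 then 1 else 0 := by
      intro b hb
      unfold ind
      simp only [hb1 b (mem_range.1 hb)]
    rw [Finset.sum_congr rfl h2, Finset.sum_ite_eq' (range p) b0, if_pos (mem_range.2 hb0)]
  unfold EEV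
  rw [Finset.sum_congr rfl hb, Finset.sum_add_distrib, Finset.sum_comm]
  have h2 : ∀ j : σ, ∑ b ∈ range p, ind p (nfV V (m j) b) • (vv p j : Al (σ × Bool)) = vv p j := by
    intro j
    rw [← Finset.sum_smul, hs j, one_smul]
  rw [Finset.sum_congr rfl fun j _ => h2 j, smul_add, Finset.sum_const, card_range]
  congr 1
  rw [← Nat.cast_smul_eq_nsmul ℝ, smul_smul, one_div, inv_mul_cancel₀ hp0, one_smul]

end Pool.Agent.Lib.MP_9f2731_nt.QL.Sw
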