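import Pool.Agent.Lib.MP_9f2731_nt.QL.Sw.Spec

/-!
MP_9f2731_nt, QL/Sw, module SmB: sums over the numbers composed of the primes dividing V.
-/

namespace Pool.Agent.Lib.MP_9f2731_nt.QL.Sw

open Finset
open Pool.Agent.Lib.MP_9f2731_nt.GP Pool.Agent.Lib.MP_9f2731_nt.GP.Sv Pool.Agent.Lib.MP_9f2731_nt.QL

namespace SmBAux

/-- the completely multiplicative function 1/n -/
private noncomputable def sbf : ℕ →* ℝ where
  toFun n := (n : ℝ)⁻¹
  map_one' := by simp
  map_mul' a b := by rw [Nat.cast_mul, mul_inv]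

private theorem sbf_apply (n : ℕ) : sbf n = (n : ℝ)⁻¹ := rfl

private theorem sm_iff {V : ℕ} (hV : 1 ≤ V) (m : ℕ) :
    SmV V m ↔ m ∈ Nat.factoredNumbers V.primeFactors := by
  rw [Nat.mem_factoredNumbers]
  constructor
  · rintro ⟨h1, h2⟩
    refine ⟨by omega, fun p hp => ?_⟩
    have hpp := Nat.prime_of_mem_primeFactorsList hp
    exact Nat.mem_primeFactors.2 ⟨hpp, h2 p hpp (Nat.dvd_of_mem_primeFactorsList hp), by omega⟩
  · rintro ⟨h1, h2⟩
    refine ⟨Nat.pos_of_ne_zero h1, fun p hp hpm => ?_⟩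
    exact Nat.dvd_of_mem_primeFactors (h2 p ((Nat.mem_primeFactorsList h1).2 ⟨hp, hpm⟩))

private theorem sb_tot {V : ℕ} (hV : 1 ≤ V) : ∏ p ∈ V.primeFactors, (1 - (p : ℝ)⁻¹) = dlV V := by
  have hW : (0 : ℝ) < (V : ℝ) := by exact_mod_cast hV
  have h2 : (((V).totient : ℚ) : ℝ) =
      (((V : ℚ) * ∏ p ∈ V.primeFactors, (1 - (p : ℚ)⁻¹) : ℚ) : ℝ) := by
    rw [Nat.totient_eq_mul_prod_factors]
  push_cast at h2
  unfold dlV
  rw [eq_div_iff hW.ne', h2, mul_comm]

open Classical in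
private theorem sb_hasSum {V : ℕ} (hV : 1 ≤ V) :
    HasSum (fun n : ℕ => if SmV V n then 1 / (n : ℝ) else 0) (1 / dlV V) := by
  have h1 := (EulerProduct.summable_and_hasSum_factoredNumbers_prod_filter_prime_geometric
    (f := sbf) (fun {p} hp => by
      rw [sbf_apply, norm_inv, Real.norm_natCast]
      exact inv_lt_one_of_one_lt₀ (by exact_mod_cast hp.one_lt)) V.primeFactors).2
  have h2 : ∏ p ∈ V.primeFactors with p.Prime, (1 - sbf p)⁻¹ = 1 / dlV V := by
    rw [filter_true_of_mem fun p hp => Nat.prime_of_mem_primeFactors hp, ← sb_tot hV, one_div,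
      ← prod_inv_distrib]
    rfl
  rw [h2] at h1
  have h3 : (fun n : ℕ => if SmV V n then 1 / (n : ℝ) else 0)
      = (Nat.factoredNumbers V.primeFactors).indicator (fun n => sbf n) := by
    funext n
    by_cases hn : SmV V n
    · rw [if_pos hn, Set.indicator_of_mem ((sm_iff hV n).1 hn), sbf_apply, one_div]
    · rw [if_neg hn, Set.indicator_of_notMem fun h => hn ((sm_iff hV n).2 h)]
  rw [h3]
  exact (hasSum_subtype_iff_indicator (f := fun n => sbf n)).1 h1

open Classical in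
private theorem sb_part {V : ℕ} (hV : 1 ≤ V) (A : Finset ℕ) :
    ∑ v ∈ A.filter (fun v => SmV V v), 1 / (v : ℝ) ≤ 1 / dlV V := by
  rw [sum_filter]
  refine sum_le_hasSum A (fun n _ => ?_) (sb_hasSum hV)
  split_ifs
  · positivity
  · exact le_rfl

private theorem sb_geo (p : ℕ) (hp : 2 ≤ p) (N : ℕ) : ∑ j ∈ Icc 1 N, 1 / (p : ℝ) ^ j ≤ 1 := by
  have h1 : ∀ N : ℕ, ∑ j ∈ Icc 1 N, (1 / 2 : ℝ) ^ j = 1 - (1 / 2) ^ N := by
    intro N
    induction N with
    | zero => simp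
    | succ n ih =>
      rw [sum_Icc_succ_top (by omega), ih, pow_succ]
      ring
  calc ∑ j ∈ Icc 1 N, 1 / (p : ℝ) ^ j ≤ ∑ j ∈ Icc 1 N, (1 / 2 : ℝ) ^ j := by
        refine sum_le_sum fun j _ => ?_
        rw [div_pow, one_pow]
        refine one_div_le_one_div_of_le (by positivity) ?_
        exact pow_le_pow_left₀ (by norm_num) (by exact_mod_cast hp) j
    _ = 1 - (1 / 2) ^ N := h1 N
    _ ≤ 1 := by
        have : (0 : ℝ) ≤ (1 / 2) ^ N := by positivity
        linarith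

open Classical in
/-- the sum of Λ(d)/d over the numbers composed of primes dividing V -/
private theorem sb_vm {V : ℕ} (hV : 1 ≤ V) (N : ℕ) :
    ∑ d ∈ (Icc 1 N).filter (fun v => SmV V v), ArithmeticFunction.vonMangoldt d / (d : ℝ)
      ≤ Real.log V := by
  set A := (Icc 1 N).filter (fun v => SmV V v) with hA
  have h1 : ∑ d ∈ A, ArithmeticFunction.vonMangoldt d / (d : ℝ)
      = ∑ d ∈ A.filter (fun d => IsPrimePow d), ArithmeticFunction.vonMangoldt d / (d : ℝ) := by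
    symm
    apply sum_filter_of_ne
    intro d _ hne
    by_contra h
    apply hne
    rw [ArithmeticFunction.vonMangoldt_apply, if_neg h, zero_div]
  have hinj : ∀ d : ℕ, IsPrimePow d → d.minFac ^ d.factorization d.minFac = d :=
    fun d hd => hd.minFac_pow_factorization_eq
  have h2 : ∑ d ∈ A.filter (fun d => IsPrimePow d), ArithmeticFunction.vonMangoldt d / (d : ℝ)
      = ∑ x ∈ (A.filter (fun d => IsPrimePow d)).image
          (fun d => ((d.minFac, d.factorization d.minFac) : ℕ × ℕ)),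
          Real.log (x.1 : ℝ) * (1 / (x.1 : ℝ) ^ x.2) := by
    rw [sum_image]
    · refine sum_congr rfl fun d hd => ?_
      have hdp := (mem_filter.1 hd).2
      rw [ArithmeticFunction.vonMangoldt_apply, if_pos hdp]
      have h3 : ((d.minFac : ℝ)) ^ d.factorization d.minFac = d := by
        exact_mod_cast hinj d hdp
      simp only
      rw [h3, mul_one_div]
    · intro d hd d' hd' h
      have hdp := (mem_filter.1 (mem_coe.1 hd)).2
      have hdp' := (mem_filter.1 (mem_coe.1 hd')).2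
      simp only [Prod.mk.injEq] at h
      calc d = d.minFac ^ d.factorization d.minFac := (hinj d hdp).symm
        _ = d'.minFac ^ d'.factorization d'.minFac := by rw [h.2, h.1]
        _ = d' := hinj d' hdp'
  have h3 : (A.filter (fun d => IsPrimePow d)).image
      (fun d => ((d.minFac, d.factorization d.minFac) : ℕ × ℕ)) ⊆ V.primeFactors ×ˢ Icc 1 N := by
    intro x hx
    obtain ⟨d, hd, rfl⟩ := mem_image.1 hx
    obtain ⟨hdA, hdp⟩ := mem_filter.1 hd
    obtain ⟨hdI, hdS⟩ := mem_filter.1 hdA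
    obtain ⟨hd1, hdN⟩ := mem_Icc.1 hdI
    have hmp : d.minFac.Prime := Nat.minFac_prime hdp.ne_one
    refine mem_product.2 ⟨Nat.mem_primeFactors.2 ⟨hmp, hdS.2 _ hmp (Nat.minFac_dvd d), by omega⟩,
      mem_Icc.2 ⟨?_, ?_⟩⟩
    · exact hmp.factorization_pos_of_dvd (by omega) (Nat.minFac_dvd d)
    · have h5 : d.factorization d.minFac < d.minFac ^ d.factorization d.minFac :=
        Nat.lt_pow_self hmp.one_lt
      rw [hinj d hdp] at h5
      simp only
      omega
  rw [h1, h2]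
  calc ∑ x ∈ (A.filter (fun d => IsPrimePow d)).image
          (fun d => ((d.minFac, d.factorization d.minFac) : ℕ × ℕ)),
          Real.log (x.1 : ℝ) * (1 / (x.1 : ℝ) ^ x.2)
      ≤ ∑ x ∈ V.primeFactors ×ˢ Icc 1 N, Real.log (x.1 : ℝ) * (1 / (x.1 : ℝ) ^ x.2) := by
        refine sum_le_sum_of_subset_of_nonneg h3 fun x _ _ => ?_
        exact mul_nonneg (Real.log_natCast_nonneg _) (by positivity)
    _ = ∑ p ∈ V.primeFactors, Real.log (p : ℝ) * ∑ j ∈ Icc 1 N, 1 / (p : ℝ) ^ j := by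
        rw [sum_product]
        refine sum_congr rfl fun p _ => ?_
        rw [mul_sum]
    _ ≤ ∑ p ∈ V.primeFactors, Real.log (p : ℝ) := by
        refine sum_le_sum fun p hp => ?_
        have h6 := sb_geo p (Nat.prime_of_mem_primeFactors hp).two_le N
        have h7 : 0 ≤ Real.log (p : ℝ) := Real.log_natCast_nonneg _
        nlinarith
    _ = Real.log ((∏ p ∈ V.primeFactors, p : ℕ) : ℝ) := by
        push_cast
        rw [Real.log_prod]
        intro p hp
        exact_mod_cast (Nat.prime_of_mem_primeFactors hp).ne_zero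
    _ ≤ Real.log V := by
        refine Real.log_le_log ?_ ?_
        · exact_mod_cast Nat.pos_of_dvd_of_pos (Nat.prod_primeFactors_dvd V) hV
        · exact_mod_cast Nat.le_of_dvd hV (Nat.prod_primeFactors_dvd V)

open Classical in
/-- the sum of (log v)/v -/
private theorem sb_log {V : ℕ} (hV : 1 ≤ V) (N : ℕ) :
    ∑ v ∈ (Icc 1 N).filter (fun v => SmV V v), 1 / (v : ℝ) * Real.log v
      ≤ Real.log V / dlV V := by
  set A := (Icc 1 N).filter (fun v => SmV V v) with hA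
  have hA1 : ∀ v ∈ A, 1 ≤ v := fun v hv => (mem_Icc.1 (mem_filter.1 hv).1).1
  have h1 : ∑ v ∈ A, 1 / (v : ℝ) * Real.log v
      = ∑ x ∈ A.sigma (fun v => v.divisors), 1 / (x.1 : ℝ) * ArithmeticFunction.vonMangoldt x.2 := by
    rw [sum_sigma]
    refine sum_congr rfl fun v _ => ?_
    rw [← ArithmeticFunction.vonMangoldt_sum, mul_sum]
  have h2 : ∑ x ∈ A.sigma (fun v => v.divisors),
        1 / (x.1 : ℝ) * ArithmeticFunction.vonMangoldt x.2
      = ∑ y ∈ (A.sigma (fun v => v.divisors)).image (fun x => (x.2, x.1 / x.2)),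
        (ArithmeticFunction.vonMangoldt y.1 / (y.1 : ℝ)) * (1 / (y.2 : ℝ)) := by
    rw [sum_image]
    · refine sum_congr rfl fun x hx => ?_
      obtain ⟨hxA, hxd⟩ := mem_sigma.1 hx
      have h3 := Nat.mul_div_cancel' (Nat.dvd_of_mem_divisors hxd)
      have h4 := Nat.pos_of_mem_divisors hxd
      have h5 := hA1 _ hxA
      have h6 : (x.1 : ℝ) = x.2 * ((x.1 / x.2 : ℕ) : ℝ) := by exact_mod_cast h3.symm
      simp only
      rw [h6]
      have h7 : (0 : ℝ) < x.2 := by exact_mod_cast h4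
      have h8 : (0 : ℝ) < ((x.1 / x.2 : ℕ) : ℝ) := by
        have : 0 < x.1 / x.2 := Nat.div_pos (Nat.le_of_dvd h5 (Nat.dvd_of_mem_divisors hxd)) h4
        exact_mod_cast this
      field_simp
    · intro x hx y hy h
      obtain ⟨_, hxd⟩ := mem_sigma.1 (mem_coe.1 hx)
      obtain ⟨_, hyd⟩ := mem_sigma.1 (mem_coe.1 hy)
      simp only [Prod.mk.injEq] at h
      have h3 := Nat.mul_div_cancel' (Nat.dvd_of_mem_divisors hxd)
      have h4 := Nat.mul_div_cancel' (Nat.dvd_of_mem_divisors hyd)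
      have h5 : x.1 = y.1 := by rw [← h3, ← h4, h.2, h.1]
      exact Sigma.ext h5 (heq_of_eq h.1)
  have h3 : (A.sigma (fun v => v.divisors)).image (fun x => (x.2, x.1 / x.2)) ⊆ A ×ˢ A := by
    intro y hy
    obtain ⟨x, hx, rfl⟩ := mem_image.1 hy
    obtain ⟨hxA, hxd⟩ := mem_sigma.1 hx
    have hdv := Nat.dvd_of_mem_divisors hxd
    have h4 := Nat.pos_of_mem_divisors hxd
    obtain ⟨hxI, hxS⟩ := mem_filter.1 hxA
    obtain ⟨hx1, hxN⟩ := mem_Icc.1 hxI
    have key : ∀ d : ℕ, d ∣ x.1 → d ∈ A := by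
      intro d hd
      have hd1 : 1 ≤ d := Nat.pos_of_dvd_of_pos hd hx1
      refine mem_filter.2 ⟨mem_Icc.2 ⟨hd1, (Nat.le_of_dvd hx1 hd).trans hxN⟩, hd1, ?_⟩
      exact fun p hp hpd => hxS.2 p hp (hpd.trans hd)
    exact mem_product.2 ⟨key _ hdv, key _ (Nat.div_dvd_of_dvd hdv)⟩
  have hd0 : 0 < dlV V := dlV_pos hV
  rw [h1, h2]
  calc ∑ y ∈ (A.sigma (fun v => v.divisors)).image (fun x => (x.2, x.1 / x.2)),
        (ArithmeticFunction.vonMangoldt y.1 / (y.1 : ℝ)) * (1 / (y.2 : ℝ))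
      ≤ ∑ y ∈ A ×ˢ A, (ArithmeticFunction.vonMangoldt y.1 / (y.1 : ℝ)) * (1 / (y.2 : ℝ)) := by
        refine sum_le_sum_of_subset_of_nonneg h3 fun y _ _ => ?_
        exact mul_nonneg (div_nonneg ArithmeticFunction.vonMangoldt_nonneg (Nat.cast_nonneg _))
          (by positivity)
    _ = (∑ d ∈ A, ArithmeticFunction.vonMangoldt d / (d : ℝ)) * ∑ w ∈ A, 1 / (w : ℝ) := by
        rw [sum_mul_sum, sum_product]
    _ ≤ Real.log V * (1 / dlV V) := by
        refine mul_le_mul (sb_vm hV N) (sb_part hV _) (sum_nonneg fun w _ => by positivity)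
          (Real.log_natCast_nonneg _)
    _ = Real.log V / dlV V := by rw [mul_one_div]

end SmBAux

open SmBAux

/-- **SmB** -/
theorem pSmB : S_SmB := by
  classical
  intro V y hV hy
  refine ⟨sb_part hV _, ?_⟩
  have hy0 : (0 : ℝ) < y := by linarith
  have hly : 0 ≤ Real.log y := Real.log_nonneg hy
  have hd0 : 0 < dlV V := dlV_pos hV
  set n0 := ⌊y⌋₊ with hn0
  set A0 := (Icc 1 n0).filter (fun v => SmV V v) with hA0
  have hA0pos : ∀ v ∈ A0, 1 ≤ v := fun v hv => (mem_Icc.1 (mem_filter.1 hv).1).1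
  have h1 : ∑ v ∈ A0, 1 / (v : ℝ) * Real.log (y / v) - Real.log y / dlV V
      = -(Real.log y * (1 / dlV V - ∑ v ∈ A0, 1 / (v : ℝ)) + ∑ v ∈ A0, 1 / (v : ℝ) * Real.log v) := by
    have h2 : ∑ v ∈ A0, 1 / (v : ℝ) * Real.log (y / v)
        = Real.log y * ∑ v ∈ A0, 1 / (v : ℝ) - ∑ v ∈ A0, 1 / (v : ℝ) * Real.log v := by
      rw [mul_sum, ← sum_sub_distrib]
      refine sum_congr rfl fun v hv => ?_
      have hv1 : (0 : ℝ) < v := by exact_mod_cast hA0pos v hv
      rw [Real.log_div hy0.ne' hv1.ne']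
      ring
    rw [h2]
    ring
  have hS := sb_part hV (Icc 1 n0)
  have hL0 : 0 ≤ ∑ v ∈ A0, 1 / (v : ℝ) * Real.log v :=
    sum_nonneg fun v _ => mul_nonneg (by positivity) (Real.log_natCast_nonneg _)
  have hE : 0 ≤ Real.log y * (1 / dlV V - ∑ v ∈ A0, 1 / (v : ℝ)) +
      ∑ v ∈ A0, 1 / (v : ℝ) * Real.log v := by
    have := mul_nonneg hly (sub_nonneg.2 hS)
    linarith
  rw [h1, abs_neg, abs_of_nonneg hE]
  -- the limit
  have hlim := (sb_hasSum hV).tendsto_sum_nat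
  have hlim2 : Filter.Tendsto (fun N : ℕ => Real.log y *
      (∑ n ∈ range N, (if SmV V n then 1 / (n : ℝ) else 0) - ∑ v ∈ A0, 1 / (v : ℝ)) +
      ∑ v ∈ A0, 1 / (v : ℝ) * Real.log v) Filter.atTop
      (nhds (Real.log y * (1 / dlV V - ∑ v ∈ A0, 1 / (v : ℝ)) +
        ∑ v ∈ A0, 1 / (v : ℝ) * Real.log v)) :=
    ((hlim.sub_const _).const_mul _).add_const _
  refine le_of_tendsto hlim2 (Filter.eventually_atTop.2 ⟨n0 + 1, fun N hN => ?_⟩)
  refine le_trans ?_ (sb_log hV N)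
  -- compare with the sum up to N
  have hzero : ¬ SmV V 0 := fun h => absurd h.1 (by omega)
  have h3 : ∑ n ∈ range N, (if SmV V n then 1 / (n : ℝ) else 0)
      = ∑ v ∈ (range N).filter (fun v => SmV V v), 1 / (v : ℝ) := by rw [sum_filter]
  set AN := (range N).filter (fun v => SmV V v) with hAN
  have hsub : A0 ⊆ AN := by
    intro v hv
    obtain ⟨h4, h5⟩ := mem_filter.1 hv
    have h6 := (mem_Icc.1 h4).2
    exact mem_filter.2 ⟨mem_range.2 (by omega), h5⟩
  have h7 : ∑ v ∈ AN \ A0, 1 / (v : ℝ) + ∑ v ∈ A0, 1 / (v : ℝ) = ∑ v ∈ AN, 1 / (v : ℝ) :=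
    sum_sdiff hsub
  rw [h3, ← h7, add_sub_cancel_right, mul_sum]
  have h8 : ∑ v ∈ AN \ A0, Real.log y * (1 / (v : ℝ)) ≤ ∑ v ∈ AN \ A0, 1 / (v : ℝ) * Real.log v := by
    refine sum_le_sum fun v hv => ?_
    obtain ⟨h9, h10⟩ := mem_sdiff.1 hv
    obtain ⟨-, h12⟩ := mem_filter.1 h9
    have h13 : n0 < v := by
      by_contra h
      exact h10 (mem_filter.2 ⟨mem_Icc.2 ⟨h12.1, by omega⟩, h12⟩)
    have h14 : y < v := (Nat.floor_lt hy0.le).1 h13
    have h15 : Real.log y ≤ Real.log v := Real.log_le_log hy0 h14.le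
    have h16 : (0 : ℝ) ≤ 1 / (v : ℝ) := by positivity
    nlinarith
  have h17 : ∑ v ∈ AN \ A0, 1 / (v : ℝ) * Real.log v + ∑ v ∈ A0, 1 / (v : ℝ) * Real.log v
      = ∑ v ∈ AN, 1 / (v : ℝ) * Real.log v := sum_sdiff hsub
  have h18 : ∑ v ∈ AN, 1 / (v : ℝ) * Real.log v
      ≤ ∑ v ∈ (Icc 1 N).filter (fun v => SmV V v), 1 / (v : ℝ) * Real.log v := by
    refine sum_le_sum_of_subset_of_nonneg ?_ fun v _ _ =>
      mul_nonneg (by positivity) (Real.log_natCast_nonneg _)
    intro v hv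
    obtain ⟨h19, h20⟩ := mem_filter.1 hv
    have := mem_range.1 h19
    exact mem_filter.2 ⟨mem_Icc.2 ⟨h20.1, by omega⟩, h20⟩
  linarith

end Pool.Agent.Lib.MP_9f2731_nt.QL.Sw
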